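import Pool.Agent.V1138.OM.Ell

/-!
# The main theorem
-/

set_option autoImplicit false
set_option linter.unusedSectionVars false

open Matrix
open scoped PeriodPair

namespace Pool.Agent.V1138.OM

open Pool.Agent.TH127.PT Pool.Agent.W245.EB H667R3 Pool.Agent.Y123.ST

/-- `K`-subtorsors, defined by polynomials over `K` -/
def SubT (K : Subfield ℂ) {B : Type} [Fintype B] [DecidableEq B] (T : Set (Matrix B B ℂ)) : Prop :=
  (∀ x ∈ T, ∀ y ∈ T, ∀ z ∈ T, x * y⁻¹ * z ∈ T) ∧ ∃ I : Set (MvPolynomial (B × B) K), ∀ x : Matrix B B ℂ, x ∈ T ↔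
    IsUnit x ∧ ∀ p ∈ I, MvPolynomial.eval (fun b => x b.1 b.2) (MvPolynomial.map (algebraMap K ℂ) p) = 0

theorem subT_iff {K : Subfield ℂ} {B : Type} [Fintype B] [DecidableEq B] {T : Set (Matrix B B ℂ)} :
    SubT K T ↔ IsSubtorsor K T := by
  constructor
  · rintro ⟨h1, I, h2⟩
    refine ⟨fun x hx => ((h2 x).1 hx).1, h1, (MvPolynomial.map (algebraMap K ℂ)) '' I, ?_, fun x => ?_⟩
    · rintro _ ⟨p, -, rfl⟩ m
      rw [MvPolynomial.coeff_map]
      exact (p.coeff m).2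
    · rw [h2]
      refine and_congr_right fun _ => ⟨?_, ?_⟩
      · rintro h _ ⟨p, hp, rfl⟩
        exact h p hp
      · intro h p hp
        exact h _ ⟨p, hp, rfl⟩
  · intro h
    obtain ⟨I, h1, h2⟩ := h.algebraic
    refine ⟨h.torsor, {p | MvPolynomial.map (algebraMap K ℂ) p ∈ I}, fun x => ?_⟩
    rw [h2]
    refine and_congr_right fun _ => ⟨?_, ?_⟩
    · intro h3 p hp
      exact h3 _ hp
    · intro h3 p hp
      obtain ⟨P0, hP0⟩ := exists_map p (h1 p hp)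
      rw [← hP0]
      exact h3 P0 (by rw [Set.mem_ofPred_eq, hP0]; exact hp)

instance : IsAlgClosed QB :=
  (algebraicClosure.isAlgClosure ℚ ℂ).isAlgClosed

theorem QB_der {z : ℂ} (h : ∀ D : Derivation QB ℂ ℂ, D z = 0) : z ∈ QB :=
  mem_QB.2 (alg_of_der (fun _ hx => mem_QB.1 hx) h)

theorem QB_transc {z : ℂ} (h : z ∉ QB) : Transcendental QB z := by
  intro h1
  apply h
  have : Algebra.IsAlgebraic ℚ QB := ⟨fun x => by
    have h1 := mem_QB.1 x.2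
    exact (isAlgebraic_algebraMap_iff (A := ℂ) (algebraMap QB ℂ).injective).1 h1⟩
  exact mem_QB.2 (h1.restrictScalars ℚ)

variable {L : PeriodPair} {m l : ℕ}

/-- the matrix of periods -/
noncomputable def per (L : PeriodPair) (u : Fin m → ℂ) (W : Matrix (Fin m) (Fin m) ℂ) (ℓ : Fin l → ℂ) :
    Matrix (Idx m l) (Idx m l) ℂ :=
  mk (pm L) (Matrix.of ![u, fun i => zt L (u i)]) W (Matrix.of fun _ => ℓ)

/-- **Main theorem.** -/
theorem main (h2 : IsAlgebraic ℚ L.g₂) (h3 : IsAlgebraic ℚ L.g₃) (hCM : NoCM L) (u : Fin m → ℂ)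
    (hu : ∀ i, u i ∈ EL L) (hind : ∀ n : Fin m → ℤ, ∑ i, (n i : ℂ) * u i ∈ L.lattice → n = 0)
    (ℓ : Fin l → ℂ) (hℓ : ∀ j, IsAlgebraic ℚ (Complex.exp (ℓ j)))
    (hℓind : ∀ n : Fin l → ℤ, Complex.exp (∑ j, (n j : ℂ) * ℓ j) = 1 → n = 0) (W : Matrix (Fin m) (Fin m) ℂ)
    (hW : W - Wᵀ = (Matrix.of ![u, fun i => zt L (u i)])ᵀ * JJ * Matrix.of ![u, fun i => zt L (u i)])
    {K : Subfield ℂ} (hK : ∀ x ∈ K, IsAlgebraic ℚ x) :
    SubT K (GG m l) ∧ per L u W ℓ ∈ GG m l ∧ ∀ T, SubT K T → per L u W ℓ ∈ T → GG m l ⊆ T := by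
  obtain ⟨n, hn, hleg⟩ := legendre L
  have hn' : ((n : ℤ) : ℂ) ≠ 0 := by exact_mod_cast hn
  have hnQ : ((n : ℤ) : ℂ) ∈ QB := by exact_mod_cast intCast_mem QB n
  have hdet : (pm L).det = n * (2 * Real.pi * Complex.I) := by rw [det_pm, hleg]
  have hdet0 : (pm L).det ≠ 0 := by
    rw [hdet]
    exact mul_ne_zero hn' Complex.two_pi_I_ne_zero
  have hC : per L u W ℓ ∈ GG m l := ⟨_, _, _, _, hdet0, hW, rfl⟩
  refine ⟨subT_iff.2 (GG_sub K), hC, fun T hT hCT => ?_⟩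
  have hKQ : K ≤ QB := fun x hx => mem_QB.2 (hK x hx)
  have hT' := inter (extend hKQ (subT_iff.1 hT)) (GG_sub (m := m) (l := l) QB)
  have hfull := full (K := QB) (fun z => QB_der) (fun z => QB_transc) hT' Set.inter_subset_right ⟨hCT, hC⟩
    (NoR_pm h2 h3 hCM) ?_ ?_ ?_
  · exact fun x hx => (hfull hx).1
  · intro h0
    apply transc_pi
    have h4 : (2 * Real.pi * Complex.I : ℂ) = (pm L).det * ((n : ℤ) : ℂ)⁻¹ := by
      rw [hdet]
      field_simp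
    rw [h4]
    exact mem_QB.1 (QB.mul_mem h0 (QB.inv_mem hnQ))
  · intro v z b hv hz hb h0
    refine points h2 h3 hCM u hu hind v (z 0) (z 1) (b 0) hv (hz 0) (hz 1) (hb 0) ?_
    have h4 := congrFun h0 0
    have h5 : (bV (per L u W ℓ) *ᵥ v) 0 = ∑ i, u i * v i := rfl
    have h6 : (by' (per L u W ℓ) *ᵥ z + b) 0 = L.ω₁ * z 0 + L.ω₂ * z 1 + b 0 := by
      show (pm L *ᵥ z) 0 + b 0 = _
      simp [pm, Matrix.mulVec, dotProduct, Fin.sum_univ_two]
    rw [h5, h6] at h4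
    exact h4
  · intro v z b hv hz hb h0
    refine logs ℓ hℓ hℓind v (n * z) b hv (QB.mul_mem hnQ hz) hb ?_
    have h4 : ∑ j, ℓ j * v j = (pm L).det * z + b := h0
    rw [h4, hdet]
    ring

end Pool.Agent.V1138.OM
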