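import Pool.Agent.V1138.OM.Fin
import Pool.Agent.W245.EB.RedZ
import Pool.Agent.H297R2.InBakerThm
import Pool.Agent.H340R2.LW

/-!
# The transcendence input
-/

set_option autoImplicit false
set_option linter.unusedSectionVars false

open Matrix
open scoped PeriodPair

namespace Pool.Agent.V1138.OM

open Pool.Agent.W245.EB H667R3

theorem transc_pi : Transcendental ℚ (2 * Real.pi * Complex.I : ℂ) := by
  intro h
  apply Pool.Agent.H340R2.LW.transcendental_pi_complex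
  have hI : IsAlgebraic ℚ Complex.I := by
    refine ⟨Polynomial.X ^ 2 + 1, ?_, ?_⟩
    · exact (Polynomial.monic_X_pow_add_C (1 : ℚ) two_ne_zero).ne_zero
    · simp
  have h2 : IsAlgebraic ℚ (2 : ℂ) := isAlgebraic_natCast (R := ℚ) (A := ℂ) 2
  have h3 : (Real.pi : ℂ) = (2 * Real.pi * Complex.I) * (2 * Complex.I)⁻¹ := by
    have := Complex.I_ne_zero
    field_simp
  rw [h3]
  exact h.mul (h2.mul hI).inv

variable (L : PeriodPair)

theorem leg_ne : L.ω₁ * eta L L.ω₂ - L.ω₂ * eta L L.ω₁ ≠ 0 := by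
  intro h
  obtain ⟨w, hw, hne⟩ := exists_quasi_period L (s := L.ω₁) (ρ := -eta L L.ω₁)
    (Or.inl (L.indep.ne_zero 0))
  apply hne
  obtain ⟨m, n, rfl⟩ := PeriodPair.mem_lattice.1 hw
  have m1 : (m : ℂ) * L.ω₁ ∈ L.lattice := by
    have := L.lattice.smul_mem m L.ω₁_mem_lattice
    rwa [zsmul_eq_mul] at this
  have m2 : (n : ℂ) * L.ω₂ ∈ L.lattice := by
    have := L.lattice.smul_mem n L.ω₂_mem_lattice
    rwa [zsmul_eq_mul] at this
  rw [eta_add L m1 m2, eta_zsmul L L.ω₁_mem_lattice, eta_zsmul L L.ω₂_mem_lattice]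
  linear_combination (n : ℂ) * h

/-- Legendre's relation, up to a rational factor -/
theorem legendre : ∃ n : ℤ, n ≠ 0 ∧
    L.ω₁ * eta L L.ω₂ - L.ω₂ * eta L L.ω₁ = n * (2 * Real.pi * Complex.I) := by
  obtain ⟨C₁, hC₁, h₁⟩ := sigma_add_coe L L.ω₁_mem_lattice
  obtain ⟨C₂, hC₂, h₂⟩ := sigma_add_coe L L.ω₂_mem_lattice
  obtain ⟨z, hz⟩ : ∃ z, z ∉ L.lattice := by
    obtain ⟨z, hz, -⟩ := exists_wp_eq L 0
    exact ⟨z, hz⟩
  have hs := sigma_ne_zero L hz
  have e1 := h₁ (z + L.ω₂)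
  rw [h₂ z] at e1
  have e2 := h₂ (z + L.ω₁)
  rw [h₁ z] at e2
  have e3 : z + L.ω₂ + L.ω₁ = z + L.ω₁ + L.ω₂ := by ring
  rw [e3, e2] at e1
  have e4 : Complex.exp (eta L L.ω₂ * (z + L.ω₁)) * Complex.exp (eta L L.ω₁ * z) =
      Complex.exp (eta L L.ω₁ * (z + L.ω₂)) * Complex.exp (eta L L.ω₂ * z) := by
    apply mul_left_cancel₀ (mul_ne_zero (mul_ne_zero hC₁ hC₂) hs)
    linear_combination e1
  rw [← Complex.exp_add, ← Complex.exp_add, Complex.exp_eq_exp_iff_exists_int] at e4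
  obtain ⟨n, hn⟩ := e4
  have e5 : L.ω₁ * eta L L.ω₂ - L.ω₂ * eta L L.ω₁ = n * (2 * Real.pi * Complex.I) := by
    linear_combination hn
  refine ⟨n, ?_, e5⟩
  rintro rfl
  apply leg_ne L
  rw [e5, Int.cast_zero, zero_mul]

/-- the quasi-period as a value of `ζ` -/
theorem eta_half {w : ℂ} (hw : w ∈ L.lattice) (hw' : w / 2 ∉ L.lattice) : eta L w = 2 * zeta L (w / 2) := by
  have h1 : -(w / 2) ∉ L.lattice := fun h => hw' (by simpa using neg_mem h)
  have h2 := zeta_add_coe L h1 hw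
  rw [zeta_neg, show -(w / 2) + w = w / 2 by ring] at h2
  linear_combination -h2

theorem eta_half₁ : eta L L.ω₁ = 2 * zeta L (L.ω₁ / 2) :=
  eta_half L L.ω₁_mem_lattice L.ω₁_div_two_notMem_lattice

theorem eta_half₂ : eta L L.ω₂ = 2 * zeta L (L.ω₂ / 2) :=
  eta_half L L.ω₂_mem_lattice L.ω₂_div_two_notMem_lattice

/-- the periods and quasi-periods -/
noncomputable def pm : Matrix (Fin 2) (Fin 2) ℂ := !![L.ω₁, L.ω₂; eta L L.ω₁, eta L L.ω₂]

theorem det_pm : (pm L).det = L.ω₁ * eta L L.ω₂ - L.ω₂ * eta L L.ω₁ := by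
  rw [pm, Matrix.det_fin_two]
  rfl

variable {L}

/-- no complex multiplication -/
def NoCM (L : PeriodPair) : Prop := ∀ α : ℂ, (∀ w ∈ L.lattice, α * w ∈ L.lattice) → ∃ n : ℤ, α = n

theorem kL_rat (h : NoCM L) {α : ℂ} (hα : α ∈ kL L) : ∃ q : ℚ, α = q := by
  obtain ⟨m, hm, h1⟩ := hα
  obtain ⟨n, hn⟩ := h _ h1
  refine ⟨n / m, ?_⟩
  have : (m : ℂ) ≠ 0 := by exact_mod_cast hm.ne'
  push_cast
  field_simp
  rw [← hn]
  ring

theorem rat_clear {ι : Type*} [Fintype ι] (q : ι → ℚ) : ∃ N : ℕ, 0 < N ∧ ∃ z : ι → ℤ, ∀ i, (N : ℚ) * q i = z i := by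
  obtain ⟨N, hN, h⟩ := exists_den_rat q
  choose z hz using h
  exact ⟨N, hN, z, hz⟩

theorem ind_rat {a b : ℚ} (h : (a : ℂ) * L.ω₁ + b * L.ω₂ = 0) : a = 0 ∧ b = 0 := by
  have := LinearIndependent.pair_iff.1 L.indep (a : ℝ) (b : ℝ) (by
    simp only [Complex.real_smul]
    exact_mod_cast h)
  exact ⟨by exact_mod_cast this.1, by exact_mod_cast this.2⟩

theorem NoR_pm (h2 : IsAlgebraic ℚ L.g₂) (h3 : IsAlgebraic ℚ L.g₃) (hCM : NoCM L) : NoR QB (pm L) := by
  intro a w ha hw h0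
  by_cases ha0 : a = 0
  · exact Or.inl ha0
  right
  have hs : a 1 ≠ 0 ∨ a 0 ≠ 0 := by
    by_contra hcon
    push Not at hcon
    apply ha0
    funext i
    fin_cases i
    · exact hcon.2
    · exact hcon.1
  refine second_kind h2 h3 ![L.ω₁, L.ω₂] ?_ ?_ (a 1) (a 0) (mem_QB.1 (ha 1)) (mem_QB.1 (ha 0)) hs w
    (fun r => mem_QB.1 (hw r)) ?_
  · intro r
    fin_cases r
    · exact Or.inl L.ω₁_mem_lattice
    · exact Or.inl L.ω₂_mem_lattice
  · intro α hα h
    obtain ⟨p, hp⟩ := kL_rat hCM (hα 0)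
    obtain ⟨q, hq⟩ := kL_rat hCM (hα 1)
    rw [Fin.sum_univ_two, hp, hq] at h
    obtain ⟨h4, h5⟩ := ind_rat (L := L) h
    funext r
    fin_cases r
    · show α 0 = 0
      rw [hp, h4, Rat.cast_zero]
    · show α 1 = 0
      rw [hq, h5, Rat.cast_zero]
  · have h4 : ∑ r, w r * (a 1 * zt L (![L.ω₁, L.ω₂] r) + a 0 * ![L.ω₁, L.ω₂] r) = a ⬝ᵥ (pm L *ᵥ w) := by
      rw [Fin.sum_univ_two]
      simp only [Matrix.cons_val_zero, Matrix.cons_val_one]
      rw [zt_of_mem L.ω₁_mem_lattice, zt_of_mem L.ω₂_mem_lattice]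
      simp [pm, dotProduct, Matrix.mulVec, Fin.sum_univ_two]
      ring
    rw [h4, h0]
    exact isAlgebraic_zero

theorem points {m : ℕ} (h2 : IsAlgebraic ℚ L.g₂) (h3 : IsAlgebraic ℚ L.g₃) (hCM : NoCM L) (u : Fin m → ℂ)
    (hu : ∀ i, u i ∈ EL L) (hind : ∀ n : Fin m → ℤ, ∑ i, (n i : ℂ) * u i ∈ L.lattice → n = 0)
    (v : Fin m → ℂ) (z₀ z₁ b : ℂ) (hv : ∀ i, v i ∈ QB) (hz₀ : z₀ ∈ QB) (hz₁ : z₁ ∈ QB) (hb : b ∈ QB)
    (h : ∑ i, u i * v i = L.ω₁ * z₀ + L.ω₂ * z₁ + b) : v = 0 := by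
  have key := second_kind h2 h3 (Fin.append u ![L.ω₁, L.ω₂]) ?_ ?_ 0 1 isAlgebraic_zero isAlgebraic_one
    (Or.inr one_ne_zero) (Fin.append v ![-z₀, -z₁]) ?_ ?_
  · funext i
    have := congrFun key (Fin.castAdd 2 i)
    rwa [Fin.append_left] at this
  · intro r
    refine Fin.addCases (fun i => ?_) (fun i => ?_) r
    · rw [Fin.append_left]
      exact hu i
    · rw [Fin.append_right]
      fin_cases i
      · exact Or.inl L.ω₁_mem_lattice
      · exact Or.inl L.ω₂_mem_lattice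
  · intro α hα h
    choose q hq using fun r => kL_rat hCM (hα r)
    obtain ⟨N, hN, n, hn⟩ := rat_clear q
    have hNC : (N : ℂ) ≠ 0 := by exact_mod_cast hN.ne'
    have hn' : ∀ r, (n r : ℂ) = N * α r := by
      intro r
      rw [hq]
      exact_mod_cast (hn r).symm
    rw [Fin.sum_univ_add] at h
    simp only [Fin.append_left, Fin.append_right, Fin.sum_univ_two, Matrix.cons_val_zero, Matrix.cons_val_one] at h
    have h4 : (fun i => n (Fin.castAdd 2 i)) = 0 := by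
      refine hind _ ?_
      have h5 : ∑ i, ((n (Fin.castAdd 2 i) : ℤ) : ℂ) * u i =
          ((-n (Fin.natAdd m 0) : ℤ) : ℂ) * L.ω₁ + ((-n (Fin.natAdd m 1) : ℤ) : ℂ) * L.ω₂ := by
        push_cast
        rw [hn', hn']
        have h6 : ∑ i, ((n (Fin.castAdd 2 i) : ℤ) : ℂ) * u i = N * ∑ i, α (Fin.castAdd 2 i) * u i := by
          rw [Finset.mul_sum]
          refine Finset.sum_congr rfl fun i _ => ?_
          rw [hn']
          ring
        rw [h6]
        linear_combination (N : ℂ) * h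
      rw [h5]
      exact PeriodPair.mem_lattice.2 ⟨_, _, rfl⟩
    have h5 : ∀ i, α (Fin.castAdd 2 i) = 0 := by
      intro i
      have h6 := hn' (Fin.castAdd 2 i)
      have h7 : n (Fin.castAdd 2 i) = 0 := congrFun h4 i
      rw [h7, Int.cast_zero] at h6
      exact (mul_eq_zero.1 h6.symm).resolve_left hNC
    simp only [h5, zero_mul, Finset.sum_const_zero, zero_add] at h
    rw [hq, hq] at h
    obtain ⟨h6, h7⟩ := ind_rat (L := L) h
    funext r
    refine Fin.addCases (fun i => h5 i) (fun i => ?_) r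
    fin_cases i
    · show α (Fin.natAdd m 0) = 0
      rw [hq, h6, Rat.cast_zero]
    · show α (Fin.natAdd m 1) = 0
      rw [hq, h7, Rat.cast_zero]
  · intro r
    refine Fin.addCases (fun i => ?_) (fun i => ?_) r
    · rw [Fin.append_left]
      exact mem_QB.1 (hv i)
    · rw [Fin.append_right]
      fin_cases i
      · exact (mem_QB.1 hz₀).neg
      · exact (mem_QB.1 hz₁).neg
  · rw [Fin.sum_univ_add]
    simp only [Fin.append_left, Fin.append_right, Fin.sum_univ_two, Matrix.cons_val_zero, Matrix.cons_val_one,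
      zero_mul, zero_add, one_mul]
    have h4 : ∑ i, v i * u i + (-z₀ * L.ω₁ + -z₁ * L.ω₂) = b := by
      have h5 : ∑ i, v i * u i = ∑ i, u i * v i := Finset.sum_congr rfl fun i _ => mul_comm _ _
      rw [h5, h]
      ring
    rw [h4]
    exact mem_QB.1 hb

theorem logs {l : ℕ} (ℓ : Fin l → ℂ) (hℓ : ∀ j, IsAlgebraic ℚ (Complex.exp (ℓ j)))
    (hind : ∀ n : Fin l → ℤ, Complex.exp (∑ j, (n j : ℂ) * ℓ j) = 1 → n = 0) (v : Fin l → ℂ) (z b : ℂ)
    (hv : ∀ j, v j ∈ QB) (hz : z ∈ QB) (hb : b ∈ QB) (h : ∑ j, ℓ j * v j = (2 * Real.pi * Complex.I) * z + b) :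
    v = 0 := by
  have key := Pool.Agent.H297R2.baker_inhom (ι := Fin l ⊕ Unit)
    (Sum.elim ℓ fun _ => 2 * Real.pi * Complex.I) ?_ ?_ (-b) ((mem_QB.1 hb).neg) (Sum.elim v fun _ => -z) ?_ ?_
  · funext j
    exact key.2 (Sum.inl j)
  · rintro (j | _)
    · exact hℓ j
    · simp only [Sum.elim_inr, Complex.exp_two_pi_mul_I]
      exact isAlgebraic_one
  · rw [Fintype.linearIndependent_iff]
    intro q hq
    obtain ⟨N, hN, n, hn⟩ := rat_clear q
    have hNC : (N : ℂ) ≠ 0 := by exact_mod_cast hN.ne'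
    have hNQ : (N : ℚ) ≠ 0 := by exact_mod_cast hN.ne'
    have hn' : ∀ r, (n r : ℂ) = N * q r := by
      intro r
      exact_mod_cast (hn r).symm
    simp only [Fintype.sum_sum_type, Sum.elim_inl, Sum.elim_inr, Finset.univ_unique, Finset.sum_singleton,
      Rat.smul_def] at hq
    have h4 : (fun j => n (Sum.inl j)) = 0 := by
      refine hind _ ?_
      rw [Complex.exp_eq_one_iff]
      refine ⟨-n (Sum.inr ()), ?_⟩
      have h6 : ∑ i, ((n (Sum.inl i) : ℤ) : ℂ) * ℓ i = N * ∑ i, (q (Sum.inl i) : ℂ) * ℓ i := by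
        rw [Finset.mul_sum]
        refine Finset.sum_congr rfl fun i _ => ?_
        rw [hn']
        ring
      rw [h6]
      push_cast
      rw [hn']
      linear_combination (N : ℂ) * hq
    have h5 : ∀ i, q (Sum.inl i) = 0 := by
      intro i
      have h6 := hn (Sum.inl i)
      have h7 : n (Sum.inl i) = 0 := congrFun h4 i
      rw [h7, Int.cast_zero] at h6
      exact (mul_eq_zero.1 h6).resolve_left hNQ
    have h6 : q (Sum.inr ()) = 0 := by
      simp only [h5, Rat.cast_zero, zero_mul, Finset.sum_const_zero, zero_add] at hq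
      have h7 := (mul_eq_zero.1 hq).resolve_right Complex.two_pi_I_ne_zero
      exact_mod_cast h7
    rintro (j | _)
    · exact h5 j
    · exact h6
  · rintro (j | _)
    · exact mem_QB.1 (hv j)
    · exact (mem_QB.1 hz).neg
  · simp only [Fintype.sum_sum_type, Sum.elim_inl, Sum.elim_inr, Finset.univ_unique, Finset.sum_singleton]
    have h5 : ∑ i, v i * ℓ i = ∑ i, ℓ i * v i := Finset.sum_congr rfl fun i _ => mul_comm _ _
    rw [h5, h]
    ring

end Pool.Agent.V1138.OM
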