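import Pool.Agent.V1138.OM.Step

/-!
# Subtorsors which contain a generic point
-/

set_option autoImplicit false
set_option linter.unusedSectionVars false

open Matrix MvPolynomial

namespace Pool.Agent.V1138.OM

open Pool.Agent.TH127.PT Pool.Agent.TH119.MX Pool.Agent.TH119.DR Pool.Agent.Y123.ST

variable {m l : ℕ} {K : Subfield ℂ}

/-- upper elementary matrices -/
def e12 (s : ℂ) : Matrix (Fin 2) (Fin 2) ℂ := !![1, s; 0, 1]
/-- lower elementary matrices -/
def e21 (s : ℂ) : Matrix (Fin 2) (Fin 2) ℂ := !![1, 0; s, 1]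
/-- the diagonal matrices -/
def dg (s : ℂ) : Matrix (Fin 2) (Fin 2) ℂ := !![s, 0; 0, 1]

theorem mk_y_mul (y y' : Matrix (Fin 2) (Fin 2) ℂ) :
    mk (m := m) (l := l) y 0 0 0 * mk y' 0 0 0 = mk (y * y') 0 0 0 := by
  rw [mk_mul]
  simp

section

variable {H : Set (Matrix (Idx m l) (Idx m l) ℂ)} (hH : Sbg K H)
  (hX : ∀ X : Matrix (Fin 2) (Fin 2) ℂ, lie X 0 0 0 ∈ LA H)
include hH hX

theorem e12_mem (s : ℂ) {y : Matrix (Fin 2) (Fin 2) ℂ} (hy : mk y 0 0 0 ∈ H) : mk (e12 s * y) 0 0 0 ∈ H := by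
  have h1 : (1 : Matrix (Fin 2) (Fin 2) ℂ) + !![0, s; 0, 0] = e12 s := by
    ext i j
    fin_cases i <;> fin_cases j <;> simp [e12]
  have := nil_mem hH hX (X := !![0, s; 0, 0]) (by
    ext i j
    fin_cases i <;> fin_cases j <;> simp [Matrix.mul_apply, Fin.sum_univ_two]) (by simp [Matrix.trace_fin_two]) (by
    rw [h1]
    simp [e12, Matrix.det_fin_two]) hy
  rwa [h1, mk_y_mul] at this

theorem e21_mem (s : ℂ) {y : Matrix (Fin 2) (Fin 2) ℂ} (hy : mk y 0 0 0 ∈ H) : mk (e21 s * y) 0 0 0 ∈ H := by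
  have h1 : (1 : Matrix (Fin 2) (Fin 2) ℂ) + !![0, 0; s, 0] = e21 s := by
    ext i j
    fin_cases i <;> fin_cases j <;> simp [e21]
  have := nil_mem hH hX (X := !![0, 0; s, 0]) (by
    ext i j
    fin_cases i <;> fin_cases j <;> simp [Matrix.mul_apply, Fin.sum_univ_two]) (by simp [Matrix.trace_fin_two]) (by
    rw [h1]
    simp [e21, Matrix.det_fin_two]) hy
  rwa [h1, mk_y_mul] at this

/-- the elements with given determinant -/
theorem sl_mem {y : Matrix (Fin 2) (Fin 2) ℂ} (h0 : y.det ≠ 0) : mk y 0 0 0 ∈ H ↔ mk (dg y.det) 0 0 0 ∈ H := by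
  -- the case of a nonzero entry
  have key : ∀ y : Matrix (Fin 2) (Fin 2) ℂ, y.det ≠ 0 → y 1 0 ≠ 0 → (mk y 0 0 0 ∈ H ↔ mk (dg y.det) 0 0 0 ∈ H) := by
    intro y h0 h1
    set δ := y.det with hδ
    have hδ' : δ = y 0 0 * y 1 1 - y 0 1 * y 1 0 := by rw [hδ, Matrix.det_fin_two]
    obtain ⟨α, β, γ, h2⟩ : ∃ α β γ, y = e12 α * (e21 β * (e12 γ * dg δ)) := by
      refine ⟨(y 0 0 / δ - 1) / (y 1 0 / δ), y 1 0 / δ, (y 1 1 - 1) / (y 1 0 / δ), ?_⟩
      ext i j
      fin_cases i <;> fin_cases j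
      · simp [e12, e21, dg, Matrix.mul_apply, Fin.sum_univ_two]
        field_simp
        ring
      · simp [e12, e21, dg, Matrix.mul_apply, Fin.sum_univ_two]
        field_simp
        rw [hδ']
        ring
      · simp [e12, e21, dg, Matrix.mul_apply, Fin.sum_univ_two]
        field_simp
      · simp [e12, e21, dg, Matrix.mul_apply, Fin.sum_univ_two]
        field_simp
        ring
    have h3 : dg δ = e12 (-γ) * (e21 (-β) * (e12 (-α) * y)) := by
      have e1 : ∀ s (M : Matrix (Fin 2) (Fin 2) ℂ), e12 (-s) * (e12 s * M) = M := by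
        intro s M
        rw [← Matrix.mul_assoc]
        have : e12 (-s) * e12 s = 1 := by
          ext i j
          fin_cases i <;> fin_cases j <;> simp [e12, Matrix.mul_apply, Fin.sum_univ_two]
        rw [this, Matrix.one_mul]
      have e2 : ∀ s (M : Matrix (Fin 2) (Fin 2) ℂ), e21 (-s) * (e21 s * M) = M := by
        intro s M
        rw [← Matrix.mul_assoc]
        have : e21 (-s) * e21 s = 1 := by
          ext i j
          fin_cases i <;> fin_cases j <;> simp [e21, Matrix.mul_apply, Fin.sum_univ_two]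
        rw [this, Matrix.one_mul]
      rw [h2, e1, e2, e1]
    constructor
    · intro h4
      rw [h3]
      exact e12_mem hH hX _ (e21_mem hH hX _ (e12_mem hH hX _ h4))
    · intro h4
      rw [h2]
      exact e12_mem hH hX _ (e21_mem hH hX _ (e12_mem hH hX _ h4))
  by_cases h1 : y 1 0 = 0
  · have h2 : (e21 1 * y).det = y.det := by
      rw [det_mul]
      simp [e21, Matrix.det_fin_two]
    have h3 : (e21 1 * y) 1 0 ≠ 0 := by
      have : (e21 1 * y) 1 0 = y 0 0 := by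
        simp [e21, Matrix.mul_apply, Fin.sum_univ_two, h1]
      rw [this]
      intro h4
      apply h0
      rw [Matrix.det_fin_two, h1, h4]
      ring
    have h4 := key (e21 1 * y) (by rwa [h2]) h3
    rw [h2] at h4
    rw [← h4]
    constructor
    · exact e21_mem hH hX 1
    · intro h5
      have h6 := e21_mem hH hX (-1) h5
      rw [← Matrix.mul_assoc] at h6
      have : e21 (-1) * e21 1 = 1 := by
        ext i j
        fin_cases i <;> fin_cases j <;> simp [e21, Matrix.mul_apply, Fin.sum_univ_two]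
      rwa [this, Matrix.one_mul] at h6
  · exact key y h0 h1

end

theorem mk_split (y : Matrix (Fin 2) (Fin 2) ℂ) (V : Matrix (Fin 2) (Fin m) ℂ) (W : Matrix (Fin m) (Fin m) ℂ)
    (t : Matrix Unit (Fin l) ℂ) : mk y V W t = mk 1 V W t * mk y 0 0 0 := by
  rw [mk_mul]
  simp

theorem mk_K {y : Matrix (Fin 2) (Fin 2) ℂ} {V : Matrix (Fin 2) (Fin m) ℂ} {W : Matrix (Fin m) (Fin m) ℂ}
    {t : Matrix Unit (Fin l) ℂ} (hy : ∀ i j, y i j ∈ K) (hV : ∀ i j, V i j ∈ K) (hW : ∀ i j, W i j ∈ K)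
    (ht : ∀ i j, t i j ∈ K) (i j : Idx m l) : mk y V W t i j ∈ K := by
  have hdet : y.det ∈ K := by
    rw [Matrix.det_fin_two]
    exact K.sub_mem (K.mul_mem (hy _ _) (hy _ _)) (K.mul_mem (hy _ _) (hy _ _))
  have hone : ∀ (n : Type) [DecidableEq n] (i j : n), (1 : Matrix n n ℂ) i j ∈ K := by
    intro n _ i j
    rw [Matrix.one_apply]
    split_ifs
    · exact K.one_mem
    · exact K.zero_mem
  have hJ : ∀ a b, JJ a b ∈ K := by
    intro a b
    fin_cases a <;> fin_cases b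
    · exact K.zero_mem
    · exact K.one_mem
    · exact K.neg_mem K.one_mem
    · exact K.zero_mem
  have hZ : ∀ i j, (Vᵀ * JJ * y) i j ∈ K := by
    intro i j
    rw [Matrix.mul_apply]
    refine K.sum_mem fun k _ => K.mul_mem ?_ (hy _ _)
    rw [Matrix.mul_apply]
    exact K.sum_mem fun k' _ => K.mul_mem (hV _ _) (hJ _ _)
  rcases i with (i | i | i) | (i | i) <;> rcases j with (j | j | j) | (j | j)
  · exact K.mul_mem hdet (hone _ i j)
  · exact hZ i j
  · exact hW i j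
  · exact K.zero_mem
  · exact K.zero_mem
  · exact K.zero_mem
  · exact hy i j
  · exact hV i j
  · exact K.zero_mem
  · exact K.zero_mem
  · exact K.zero_mem
  · exact K.zero_mem
  · exact hone _ i j
  · exact K.zero_mem
  · exact K.zero_mem
  · exact K.zero_mem
  · exact K.zero_mem
  · exact K.zero_mem
  · exact K.mul_mem hdet (hone _ i j)
  · exact ht i j
  · exact K.zero_mem
  · exact K.zero_mem
  · exact K.zero_mem
  · exact K.zero_mem
  · exact hone _ i j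

/-- the diagonal torus -/
theorem dg_mem {H : Set (Matrix (Idx m l) (Idx m l) ℂ)} (hH : Sbg K H) {δ : ℂ} (hδ : Transcendental K δ)
    (h : mk (dg δ) 0 0 0 ∈ H) {s : ℂ} (hs : s ≠ 0) : mk (dg s) 0 0 0 ∈ H := by
  obtain ⟨I, h1, h2⟩ := hH.sub.algebraic
  have hdet : ∀ s, (dg s).det = s := by
    intro s
    simp [dg, Matrix.det_fin_two]
  let Y : Matrix (Idx m l) (Idx m l) ℂ := mk (dg 0) 0 0 0
  let Z : Matrix (Idx m l) (Idx m l) ℂ := mk (dg 1) 0 0 0 - mk (dg 0) 0 0 0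
  have hYZ : ∀ s : ℂ, mk (dg s) 0 0 0 = Y + s • Z := by
    intro s
    simp only [Y, Z]
    unfold mk
    rw [hdet, hdet, hdet, transpose_zero, Matrix.zero_mul, Matrix.zero_mul, Matrix.zero_mul, Matrix.zero_mul]
    ext i j
    rcases i with (i | i | i) | (i | i) <;> rcases j with (j | j | j) | (j | j) <;> simp
    · fin_cases i <;> fin_cases j <;> simp [dg]
    · right
      simp [Matrix.one_apply]
  have hdgK : ∀ s ∈ K, ∀ i j, mk (m := m) (l := l) (dg s) 0 0 0 i j ∈ K := by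
    intro s hs
    refine mk_K ?_ (fun _ _ => K.zero_mem) (fun _ _ => K.zero_mem) (fun _ _ => K.zero_mem)
    intro i j
    fin_cases i <;> fin_cases j
    · exact hs
    · exact K.zero_mem
    · exact K.zero_mem
    · exact K.one_mem
  have hYK : ∀ i j, Y i j ∈ K := hdgK 0 K.zero_mem
  have hZK : ∀ i j, Z i j ∈ K := fun i j => K.sub_mem (hdgK 1 K.one_mem i j) (hdgK 0 K.zero_mem i j)
  rw [h2]
  refine ⟨isUnit_of ⟨dg s, 0, 0, 0, by rwa [hdet], by simp, rfl⟩, fun p hp => ?_⟩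
  obtain ⟨P0, rfl⟩ := exists_map p (h1 p hp)
  let q : Polynomial K := aeval (fun b : Idx m l × Idx m l =>
    Polynomial.C (⟨Y b.1 b.2, hYK b.1 b.2⟩ : K) + Polynomial.X * Polynomial.C (⟨Z b.1 b.2, hZK b.1 b.2⟩ : K)) P0
  have hq : ∀ s : ℂ, Polynomial.aeval s q =
      eval (fun b : Idx m l × Idx m l => mk (dg s) 0 0 0 b.1 b.2) (P0.map (algebraMap K ℂ)) := by
    intro s
    rw [eval_map]
    simp only [q]
    rw [← AlgHom.comp_apply, MvPolynomial.comp_aeval]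
    rw [aeval_def]
    congr 1
    funext b
    rw [hYZ]
    simp only [map_add, map_mul, Polynomial.aeval_C, Polynomial.aeval_X, Matrix.add_apply, Matrix.smul_apply,
      smul_eq_mul]
    rfl
  have hq0 : q = 0 := by
    by_contra hne
    apply hδ
    refine ⟨q, hne, ?_⟩
    rw [hq]
    exact ((h2 _).1 h).2 _ hp
  rw [← hq, hq0, map_zero]

/-- **A subgroup over `K` which contains a generic point is everything.** -/
theorem full_sbg [IsAlgClosed K] (hKa : ∀ z : ℂ, (∀ D : Derivation K ℂ ℂ, D z = 0) → z ∈ K)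
    {H : Set (Matrix (Idx m l) (Idx m l) ℂ)} (hH : Sbg K H) {C : Matrix (Idx m l) (Idx m l) ℂ} (hC : C ∈ H)
    (h1 : lie 1 0 0 0 ∈ LA H) (hR : NoR K (by' C)) (hδ : Transcendental K (by' C).det)
    {D₀ : Derivation K ℂ ℂ} (hD₀ : D₀ (by' C).det ≠ 0)
    (hV : ∀ (u : Fin m → ℂ) (z : Fin 2 → ℂ), (∀ i, u i ∈ K) → (∀ i, z i ∈ K) → bV C *ᵥ u = by' C *ᵥ z → u = 0)
    (ht : ∀ (u : Fin l → ℂ) (z : ℂ), (∀ i, u i ∈ K) → z ∈ K → ∑ j, bt C () j * u j = (by' C).det * z → u = 0) :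
    GG m l ⊆ H := by
  have hX := step1 hKa hH hC hR hD₀
  have hXX : ∀ X : Matrix (Fin 2) (Fin 2) ℂ, lie X 0 0 0 ∈ LA H := by
    intro X
    obtain ⟨w, hw, rfl⟩ := hX X
    exact (graded hH h1 hw).1
  have hA := step2 hKa hH hC h1 hX hV
  have hs := step4 hKa hH hC h1 hA ht
  have hun : ∀ {x : Matrix (Idx m l) (Idx m l) ℂ}, x ∈ GG m l → (x ∈ H ↔ mk (by' x) 0 0 0 ∈ H) := by
    rintro x ⟨y, V, W, t, h2, h3, rfl⟩
    rw [by_mk, mk_split]
    constructor
    · intro h4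
      obtain ⟨u', ⟨y', V', W', t', -, h3', rfl⟩, h5⟩ := exists_inv (m := m) (l := l) (x := mk 1 V W t)
        ⟨1, V, W, t, by simp, h3, rfl⟩
      have hy' : y' = 1 := by
        have h6 := congrArg by' h5
        rw [mk_mul, by_mk, Matrix.one_mul] at h6
        rw [h6]
        have := by_mk (m := m) (l := l) 1 0 0 0
        rwa [mk_one] at this
      rw [hy'] at h5
      have h6 := uni_mem (t := t') hH hA hs h3' h4
      have h7 : mk 1 V' W' t' * mk 1 V W t = 1 := mul_eq_one_comm.1 h5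
      rwa [← Matrix.mul_assoc, h7, Matrix.one_mul] at h6
    · exact uni_mem hH hA hs h3
  have hdC : (by' C).det ≠ 0 := (mem_GG_iff.1 (hH.le hC)).1
  intro x hx
  rw [hun hx, sl_mem hH hXX (mem_GG_iff.1 hx).1]
  refine dg_mem hH hδ ?_ (mem_GG_iff.1 hx).1
  rw [← sl_mem hH hXX hdC, ← hun (hH.le hC)]
  exact hC

theorem inv_K {N : Type} [Fintype N] [DecidableEq N] {A : Matrix N N ℂ} (hA : ∀ i j, A i j ∈ K) :
    ∀ i j, A⁻¹ i j ∈ K := by
  let A0 : Matrix N N K := Matrix.of fun i j => ⟨A i j, hA i j⟩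
  have h1 : A = (algebraMap K ℂ).mapMatrix A0 := by
    ext i j
    rfl
  have h2 : A⁻¹ = (algebraMap K ℂ).mapMatrix (A0⁻¹) := by
    rw [Matrix.inv_def, Matrix.inv_def, h1, ← RingHom.map_det, ← RingHom.map_adjugate, Ring.inverse_eq_inv',
      Ring.inverse_eq_inv', ← map_inv₀]
    ext i j
    simp [RingHom.mapMatrix_apply]
  intro i j
  rw [h2]
  exact (A0⁻¹ i j).2

theorem mul_K {N : Type} [Fintype N] {A B : Matrix N N ℂ} (hA : ∀ i j, A i j ∈ K) (hB : ∀ i j, B i j ∈ K) :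
    ∀ i j, (A * B) i j ∈ K := by
  intro i j
  rw [Matrix.mul_apply]
  exact K.sum_mem fun k _ => K.mul_mem (hA _ _) (hB _ _)

theorem blocks_mul {x x' : Matrix (Idx m l) (Idx m l) ℂ} (hx : x ∈ GG m l) (hx' : x' ∈ GG m l) :
    by' (x * x') = by' x * by' x' ∧ bV (x * x') = by' x * bV x' + bV x ∧
      bt (x * x') = (by' x).det • bt x' + bt x := by
  obtain ⟨y, V, W, t, -, -, rfl⟩ := hx
  obtain ⟨y', V', W', t', -, -, rfl⟩ := hx'
  rw [mk_mul]
  exact ⟨rfl, rfl, rfl⟩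

theorem xi_mul {A : Matrix (Fin 2) (Fin m) ℂ} {W B : Matrix (Fin m) (Fin m) ℂ} {t s : Matrix Unit (Fin l) ℂ}
    (hW : (2 : ℂ) • W = B + Aᵀ * JJ * A) (ht : (2 : ℂ) • t = s) :
    lie 1 0 0 0 * mk 1 A W t = mk 1 A W t * lie 1 A B s := by
  unfold lie mk
  simp only [fromBlocks_multiply, Matrix.mul_zero, Matrix.zero_mul, add_zero, zero_add, Matrix.mul_one,
    Matrix.one_mul, Matrix.smul_mul, Matrix.mul_smul, fromCols_mul_fromBlocks, smul_smul, smul_cols, add_cols,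
    smul_zero, transpose_zero, det_one, one_smul, one_mul, Matrix.trace_one, Fintype.card_fin, Nat.cast_ofNat]
  rw [hW, ht, two_smul ℂ (Aᵀ * JJ)]

/-- **Main theorem.** A subtorsor over `K` which contains a generic point is everything. -/
theorem full [IsAlgClosed K] (hKa : ∀ z : ℂ, (∀ D : Derivation K ℂ ℂ, D z = 0) → z ∈ K)
    (hKt : ∀ z : ℂ, z ∉ K → Transcendental K z)
    {T : Set (Matrix (Idx m l) (Idx m l) ℂ)} (hT : IsSubtorsor K T) (hle : T ⊆ GG m l)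
    {C : Matrix (Idx m l) (Idx m l) ℂ} (hC : C ∈ T) (hR : NoR K (by' C)) (hδ : (by' C).det ∉ K)
    (hV : ∀ (u : Fin m → ℂ) (z b : Fin 2 → ℂ), (∀ i, u i ∈ K) → (∀ i, z i ∈ K) → (∀ i, b i ∈ K) →
      bV C *ᵥ u = by' C *ᵥ z + b → u = 0)
    (ht : ∀ (u : Fin l → ℂ) (z b : ℂ), (∀ i, u i ∈ K) → z ∈ K → b ∈ K →
      ∑ j, bt C () j * u j = (by' C).det * z + b → u = 0) :
    GG m l ⊆ T := by
  have hCG := hle hC
  -- an algebraic point
  obtain ⟨t₀, ht₀, ht₀K⟩ := exists_point' hT hC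
  have ht₀G := hle ht₀
  have hu₀ := isUnit_of ht₀G
  have hu₀' := (Matrix.isUnit_iff_isUnit_det t₀).1 hu₀
  -- the product with an element of the group
  have key : ∀ {g : Matrix (Idx m l) (Idx m l) ℂ}, g ∈ GG m l → (∀ i j, g i j ∈ K) →
      Sbg K {x | g⁻¹ * x * (g * t₀) ∈ T} ∧ g * C * (t₀⁻¹ * g⁻¹) ∈ {x | g⁻¹ * x * (g * t₀) ∈ T} := by
    intro g hg hgK
    have hug := isUnit_of hg
    have hug' := (Matrix.isUnit_iff_isUnit_det g).1 hug
    refine ⟨⟨translate hT (isUnit_of (GG_inv hg)) (hug.mul hu₀) (inv_K hgK) (mul_K hgK ht₀K), ?_, ?_⟩, ?_⟩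
    · intro x hx
      have h1 := hle hx
      have h2 : x = g * (g⁻¹ * x * (g * t₀)) * (g * t₀)⁻¹ := by
        have h3 : IsUnit (g * t₀).det := (Matrix.isUnit_iff_isUnit_det _).1 (hug.mul hu₀)
        rw [← Matrix.mul_assoc, Matrix.mul_assoc (g * (g⁻¹ * x)), Matrix.mul_nonsing_inv _ h3, Matrix.mul_one,
          ← Matrix.mul_assoc, Matrix.mul_nonsing_inv _ hug', Matrix.one_mul]
      rw [h2]
      exact GG_mul (GG_mul hg h1) (GG_inv (GG_mul hg ht₀G))
    · show g⁻¹ * 1 * (g * t₀) ∈ T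
      rw [Matrix.mul_one, ← Matrix.mul_assoc, Matrix.nonsing_inv_mul _ hug', Matrix.one_mul]
      exact ht₀
    · show g⁻¹ * (g * C * (t₀⁻¹ * g⁻¹)) * (g * t₀) ∈ T
      have h2 : g⁻¹ * (g * C * (t₀⁻¹ * g⁻¹)) * (g * t₀) = C := by
        calc g⁻¹ * (g * C * (t₀⁻¹ * g⁻¹)) * (g * t₀) = (g⁻¹ * g) * C * t₀⁻¹ * (g⁻¹ * g) * t₀ := by
              simp only [Matrix.mul_assoc]
          _ = C * (t₀⁻¹ * t₀) := by
              rw [Matrix.nonsing_inv_mul _ hug', Matrix.one_mul, Matrix.mul_one, Matrix.mul_assoc]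
          _ = C := by rw [Matrix.nonsing_inv_mul _ hu₀', Matrix.mul_one]
      rw [h2]
      exact hC
  -- the hypotheses for the translated point
  have hyp : ∀ {g : Matrix (Idx m l) (Idx m l) ℂ}, g ∈ GG m l → (∀ i j, g i j ∈ K) → by' g = 1 →
      NoR K (by' (g * C * (t₀⁻¹ * g⁻¹))) ∧ (by' (g * C * (t₀⁻¹ * g⁻¹))).det ∉ K ∧
      (∀ (u : Fin m → ℂ) (z : Fin 2 → ℂ), (∀ i, u i ∈ K) → (∀ i, z i ∈ K) →
        bV (g * C * (t₀⁻¹ * g⁻¹)) *ᵥ u = by' (g * C * (t₀⁻¹ * g⁻¹)) *ᵥ z → u = 0) ∧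
      (∀ (u : Fin l → ℂ) (z : ℂ), (∀ i, u i ∈ K) → z ∈ K →
        ∑ j, bt (g * C * (t₀⁻¹ * g⁻¹)) () j * u j = (by' (g * C * (t₀⁻¹ * g⁻¹))).det * z → u = 0) := by
    intro g hg hgK hg1
    have hg' : t₀⁻¹ * g⁻¹ ∈ GG m l := GG_mul (GG_inv ht₀G) (GG_inv hg)
    have hg'K : ∀ i j, (t₀⁻¹ * g⁻¹) i j ∈ K := mul_K (inv_K ht₀K) (inv_K hgK)
    obtain ⟨a1, a2, a3⟩ := blocks_mul hg hCG
    obtain ⟨b1, b2, b3⟩ := blocks_mul (GG_mul hg hCG) hg'
    rw [hg1, Matrix.one_mul] at a1 a2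
    rw [hg1, det_one, one_smul] at a3
    rw [a1] at b1 b2 b3
    rw [a2] at b2
    rw [a3] at b3
    set g' := t₀⁻¹ * g⁻¹ with hg'def
    set h := by' g' with hh
    have hhK : ∀ i j, h i j ∈ K := fun i j => hg'K _ _
    have hVK : ∀ i j, bV g' i j ∈ K := fun i j => hg'K _ _
    have htK : ∀ i j, bt g' i j ∈ K := fun i j => hg'K _ _
    have hVgK : ∀ i j, bV g i j ∈ K := fun i j => hgK _ _
    have htgK : ∀ i j, bt g i j ∈ K := fun i j => hgK _ _
    have hhdet : h.det ≠ 0 := (mem_GG_iff.1 hg').1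
    have hhdK : h.det ∈ K := by
      rw [Matrix.det_fin_two]
      exact K.sub_mem (K.mul_mem (hhK _ _) (hhK _ _)) (K.mul_mem (hhK _ _) (hhK _ _))
    have hmv : ∀ {n p : Type} [Fintype p] {M : Matrix n p ℂ} {v : p → ℂ}, (∀ i j, M i j ∈ K) → (∀ i, v i ∈ K) →
        ∀ i, (M *ᵥ v) i ∈ K := by
      intro n p _ M v hM hv i
      exact K.sum_mem fun k _ => K.mul_mem (hM _ _) (hv _)
    rw [b1, b2, b3]
    refine ⟨?_, ?_, ?_, ?_⟩
    · intro a w ha hw h0
      rw [← Matrix.mulVec_mulVec] at h0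
      rcases hR a (h *ᵥ w) ha (hmv hhK hw) h0 with h1 | h1
      · exact Or.inl h1
      · right
        have h2 := congrArg (fun v => h⁻¹ *ᵥ v) h1
        simp only [Matrix.mulVec_mulVec, Matrix.nonsing_inv_mul _ (isUnit_iff_ne_zero.2 hhdet), Matrix.one_mulVec,
          Matrix.mulVec_zero] at h2
        exact h2
    · intro h0
      apply hδ
      rw [det_mul] at h0
      have h1 : (by' C).det = (by' C).det * h.det * h.det⁻¹ := by
        rw [mul_assoc, mul_inv_cancel₀ hhdet, mul_one]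
      rw [h1]
      exact K.mul_mem h0 (K.inv_mem hhdK)
    · intro u z hu hz h0
      refine hV u (h *ᵥ z - bV g' *ᵥ u) (-(bV g *ᵥ u)) hu
        (fun i => K.sub_mem (hmv hhK hz i) (hmv hVK hu i)) (fun i => K.neg_mem (hmv hVgK hu i)) ?_
      rw [Matrix.add_mulVec, Matrix.add_mulVec, ← Matrix.mulVec_mulVec, ← Matrix.mulVec_mulVec] at h0
      rw [Matrix.mulVec_sub, ← h0]
      abel
    · intro u z hu hz h0
      refine ht u (h.det * z - ∑ j, bt g' () j * u j) (-(∑ j, bt g () j * u j)) hu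
        (K.sub_mem (K.mul_mem hhdK hz) (K.sum_mem fun j _ => K.mul_mem (htK _ _) (hu _)))
        (K.neg_mem (K.sum_mem fun j _ => K.mul_mem (htgK _ _) (hu _))) ?_
      rw [det_mul] at h0
      have h1 : ∑ j, ((by' C).det • bt g' + (bt C + bt g)) () j * u j =
          (by' C).det * ∑ j, bt g' () j * u j + (∑ j, bt C () j * u j + ∑ j, bt g () j * u j) := by
        rw [Finset.mul_sum, ← Finset.sum_add_distrib, ← Finset.sum_add_distrib]
        refine Finset.sum_congr rfl fun j _ => ?_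
        simp only [Matrix.add_apply, Matrix.smul_apply, smul_eq_mul]
        ring
      rw [h1] at h0
      linear_combination h0
  have hder : ∀ z : ℂ, z ∉ K → ∃ D : Derivation K ℂ ℂ, D z ≠ 0 := by
    intro z hz
    by_contra hcon
    push Not at hcon
    exact hz (hKa z hcon)
  have honeK : ∀ (i j : Idx m l), (1 : Matrix (Idx m l) (Idx m l) ℂ) i j ∈ K := by
    intro i j
    rw [Matrix.one_apply]
    split_ifs
    · exact K.one_mem
    · exact K.zero_mem
  have hby1 : by' (1 : Matrix (Idx m l) (Idx m l) ℂ) = 1 := by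
    have := by_mk (m := m) (l := l) 1 0 0 0
    rwa [mk_one] at this
  -- first translation
  obtain ⟨hH₀, hC₀⟩ := key GG_one honeK
  obtain ⟨n1, n2, -, -⟩ := hyp GG_one honeK hby1
  obtain ⟨D₀, hD₀⟩ := hder _ n2
  obtain ⟨w, hw, hw1⟩ := step1 hKa hH₀ hC₀ n1 hD₀ 1
  obtain ⟨f, hf, hf1⟩ := lin_one (K := K)
  have hξ := LA_map hH₀.sub f hw
  have hξK : ∀ i j, (w.map f) i j ∈ K := fun i j => hf _
  have hξ1 : by' (w.map f) = 1 := by
    rw [by_map, hw1]
    ext i j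
    rw [Matrix.map_apply, Matrix.one_apply]
    split_ifs
    · exact hf1
    · exact map_zero f
  obtain ⟨s1, s2⟩ := shape hH₀.le hH₀.one hξ
  set ξ := w.map f with hξdef
  -- conjugation
  set A := bV ξ with hA
  set B := bW ξ with hB
  set s := bt ξ with hs
  have h2K : (1 / 2 : ℂ) ∈ K := K.div_mem K.one_mem (by exact_mod_cast natCast_mem K 2)
  have hJK : ∀ a b, JJ a b ∈ K := by
    intro a b
    fin_cases a <;> fin_cases b
    · exact K.zero_mem
    · exact K.one_mem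
    · exact K.neg_mem K.one_mem
    · exact K.zero_mem
  have hAJA : ∀ i j, (Aᵀ * JJ * A) i j ∈ K := by
    intro i j
    rw [Matrix.mul_apply]
    refine K.sum_mem fun k _ => K.mul_mem ?_ (hξK _ _)
    rw [Matrix.mul_apply]
    exact K.sum_mem fun k' _ => K.mul_mem (hξK _ _) (hJK _ _)
  let g : Matrix (Idx m l) (Idx m l) ℂ := mk 1 A ((1 / 2 : ℂ) • (B + Aᵀ * JJ * A)) ((1 / 2 : ℂ) • s)
  have hg : g ∈ GG m l := by
    refine ⟨_, _, _, _, by simp, ?_, rfl⟩
    have h5 : (Aᵀ * JJ * A)ᵀ = -(Aᵀ * JJ * A) := by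
      simp only [transpose_mul, transpose_transpose, JJ_t, Matrix.mul_neg, Matrix.neg_mul, Matrix.mul_assoc]
    rw [transpose_smul, transpose_add, h5, s2]
    module
  have hgK : ∀ i j, g i j ∈ K := by
    refine mk_K ?_ (fun i j => hξK _ _) (fun i j => K.mul_mem h2K (K.add_mem (hξK _ _) (hAJA _ _)))
      (fun i j => K.mul_mem h2K (hξK _ _))
    intro i j
    rw [Matrix.one_apply]
    split_ifs
    · exact K.one_mem
    · exact K.zero_mem
  have hug := isUnit_of hg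
  have hug' := (Matrix.isUnit_iff_isUnit_det g).1 hug
  have hξ0 : lie 1 0 0 0 * g = g * ξ := by
    rw [s1, hξ1]
    exact xi_mul (by module) (by module)
  have hξT : ξ ∈ LA T := by
    have h1 := LA_translate (T := {x | (1 : Matrix (Idx m l) (Idx m l) ℂ)⁻¹ * x * (1 * t₀) ∈ T}) (U := 1) (V := t₀⁻¹)
      isUnit_one (isUnit_of (GG_inv ht₀G)) (w := ξ) (by
        have h0 : (1 : Matrix (Idx m l) (Idx m l) ℂ) * ξ * (1 : Matrix (Idx m l) (Idx m l) ℂ)⁻¹ = ξ := by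
          rw [inv_one, Matrix.mul_one, Matrix.one_mul]
        rw [h0]
        exact hξ)
    have h2 : {x : Matrix (Idx m l) (Idx m l) ℂ | 1 * x * t₀⁻¹ ∈
        {x | (1 : Matrix (Idx m l) (Idx m l) ℂ)⁻¹ * x * (1 * t₀) ∈ T}} = T := by
      ext x
      show (1 : Matrix (Idx m l) (Idx m l) ℂ)⁻¹ * (1 * x * t₀⁻¹) * (1 * t₀) ∈ T ↔ x ∈ T
      rw [inv_one, Matrix.one_mul, Matrix.one_mul, Matrix.one_mul, Matrix.mul_assoc, Matrix.nonsing_inv_mul _ hu₀',
        Matrix.mul_one]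
    rwa [h2] at h1
  obtain ⟨hH, hCH⟩ := key hg hgK
  obtain ⟨m1, m2, m3, m4⟩ := hyp hg hgK rfl
  have h1 : lie 1 0 0 0 ∈ LA {x | g⁻¹ * x * (g * t₀) ∈ T} := by
    refine LA_translate (isUnit_of (GG_inv hg)) (hug.mul hu₀) ?_
    rw [Matrix.nonsing_inv_nonsing_inv _ hug', Matrix.mul_assoc, hξ0, ← Matrix.mul_assoc,
      Matrix.nonsing_inv_mul _ hug', Matrix.one_mul]
    exact hξT
  obtain ⟨D₁, hD₁⟩ := hder _ m2
  have h2 := full_sbg hKa hH hCH h1 m1 (hKt _ m2) hD₁ m3 m4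
  intro x hx
  have h3 : g * x * (g * t₀)⁻¹ ∈ GG m l := GG_mul (GG_mul hg hx) (GG_inv (GG_mul hg ht₀G))
  have h4 := h2 h3
  change g⁻¹ * (g * x * (g * t₀)⁻¹) * (g * t₀) ∈ T at h4
  have h5 : g⁻¹ * (g * x * (g * t₀)⁻¹) * (g * t₀) = x := by
    have h3 : IsUnit (g * t₀).det := (Matrix.isUnit_iff_isUnit_det _).1 (hug.mul hu₀)
    calc g⁻¹ * (g * x * (g * t₀)⁻¹) * (g * t₀) = (g⁻¹ * g) * x * ((g * t₀)⁻¹ * (g * t₀)) := by
          simp only [Matrix.mul_assoc]
      _ = x := by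
          rw [Matrix.nonsing_inv_mul _ h3, Matrix.nonsing_inv_mul _ hug', Matrix.one_mul, Matrix.mul_one]
  rwa [h5] at h4

end Pool.Agent.V1138.OM
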