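import Pool.Agent.Y123.ST.Exp

/-!
# Subtorsors: translates, points over algebraically closed fields, the Lie algebra of a group
-/

set_option autoImplicit false
set_option linter.unusedSectionVars false

open Matrix MvPolynomial

namespace Pool.Agent.V1138.OM

open Pool.Agent.TH127.PT Pool.Agent.TH119.MX Pool.Agent.TH119.DR Pool.Agent.Y123.ST

variable {N : Type} [Fintype N] [DecidableEq N] {K : Subfield ℂ} {T : Set (Matrix N N ℂ)}

/-! ### Derivations -/

section der

variable {m n p : Type*} [Fintype n]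

theorem der_mul (D : Derivation K ℂ ℂ) (A : Matrix m n ℂ) (B : Matrix n p ℂ) :
    (A * B).map D = A.map D * B + A * B.map D := by
  ext i j
  simp only [Matrix.map_apply, Matrix.mul_apply, Matrix.add_apply, map_sum, D.leibniz, smul_eq_mul,
    Finset.sum_add_distrib]
  rw [add_comm]
  congr 1
  exact Finset.sum_congr rfl fun k _ => by ring

theorem der_mem (D : Derivation K ℂ ℂ) {z : ℂ} (hz : z ∈ K) : D z = 0 := D.map_algebraMap (⟨z, hz⟩ : K)

theorem der_zero (D : Derivation K ℂ ℂ) {A : Matrix m n ℂ} (hA : ∀ i j, A i j ∈ K) : A.map D = 0 := by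
  ext i j
  rw [Matrix.map_apply, Matrix.zero_apply]
  exact der_mem D (hA i j)

end der

/-- derivations over `K` detect transcendental numbers -/
theorem exists_der_ne (hK : ∀ x ∈ K, IsAlgebraic ℚ x) {z : ℂ} (hz : Transcendental ℚ z) :
    ∃ D : Derivation K ℂ ℂ, D z ≠ 0 := by
  have _ : Algebra.IsAlgebraic ℚ K := ⟨fun x => by
    have h1 := hK x x.2
    exact (isAlgebraic_algebraMap_iff (A := ℂ) (algebraMap K ℂ).injective).1 h1⟩
  have hzK : Transcendental K z := by
    intro h
    exact hz (h.restrictScalars ℚ)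
  have hind : AlgebraicIndependent K (fun _ : Unit => z) := (algebraicIndependent_unique_type_iff).2 hzK
  obtain ⟨D, hD⟩ := Pool.Agent.H135R2.VS.exists_der hind (fun _ => (1 : ℂ))
  refine ⟨D, ?_⟩
  have h1 := hD ()
  rw [h1]
  exact one_ne_zero

theorem alg_of_der (hK : ∀ x ∈ K, IsAlgebraic ℚ x) {z : ℂ} (h : ∀ D : Derivation K ℂ ℂ, D z = 0) :
    IsAlgebraic ℚ z := by
  by_contra hz
  obtain ⟨D, hD⟩ := exists_der_ne hK hz
  exact hD (h D)

/-! ### The Lie algebra -/

/-- the left Lie algebra as a space of matrices -/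
def LA (T : Set (Matrix N N ℂ)) : Submodule ℂ (Matrix N N ℂ) where
  carrier := {w | fl w ∈ LL T}
  zero_mem' := (LL T).zero_mem
  add_mem' := fun h h' => (LL T).add_mem h h'
  smul_mem' := fun a _ h => (LL T).smul_mem a h

theorem mem_LA {w : Matrix N N ℂ} : w ∈ LA T ↔ fl w ∈ LL T := Iff.rfl

theorem LA_map (hT : IsSubtorsor K T) (f : ℂ →ₗ[K] ℂ) {w : Matrix N N ℂ} (hw : w ∈ LA T) : w.map f ∈ LA T :=
  (LL_def hT).map f hw

/-- the Lie algebra is closed under brackets -/
theorem LA_bracket {w v : Matrix N N ℂ} (hw : w ∈ LA T) (hv : v ∈ LA T) : w * v - v * w ∈ LA T := by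
  intro P hP x hx
  have key : ∀ a b : Matrix N N ℂ, dd (DL b P) (fl x) (fl (a * x)) =
      (∑ k, dd (pderiv k P) (fl x) (fl (a * x)) * fl (b * x) k) + dd P (fl x) (fl (b * (a * x))) := by
    intro a b
    have h0 : ∀ k, dd (pderiv k P * sb (ml b) k) (fl x) (fl (a * x)) =
        dd (pderiv k P) (fl x) (fl (a * x)) * fl (b * x) k + eval (fl x) (pderiv k P) * fl (b * (a * x)) k := by
      intro k
      rw [dd_mul, dd_sb, eval_sb]
      rfl
    unfold DL
    rw [dd_sum, Finset.sum_congr rfl fun k _ => h0 k, Finset.sum_add_distrib]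
    rfl
  have sym : (∑ k, dd (pderiv k P) (fl x) (fl (w * x)) * fl (v * x) k) =
      ∑ k, dd (pderiv k P) (fl x) (fl (v * x)) * fl (w * x) k := by
    unfold dd
    simp only [Finset.sum_mul]
    rw [Finset.sum_comm]
    refine Finset.sum_congr rfl fun k _ => Finset.sum_congr rfl fun l _ => ?_
    have : pderiv k (pderiv l P) = pderiv l (pderiv k P) := by
      have h := congrArg (fun D : Derivation ℂ (MvPolynomial (N × N) ℂ) (MvPolynomial (N × N) ℂ) => D P)
        (show ⁅(pderiv k : Derivation ℂ (MvPolynomial (N × N) ℂ) (MvPolynomial (N × N) ℂ)), pderiv l⁆ = 0 from by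
          apply MvPolynomial.derivation_ext
          intro i
          rw [Derivation.commutator_apply]
          classical
          simp only [pderiv_X, Pi.single_apply]
          split_ifs <;> simp)
      rw [Derivation.commutator_apply] at h
      exact sub_eq_zero.1 h
    rw [this]
    ring
  have h1 := hw _ (van_DL (w := v) hv hP) x hx
  have h2 := hv _ (van_DL (w := w) hw hP) x hx
  rw [um_fl, key] at h1 h2
  rw [um_fl]
  have h3 : fl ((w * v - v * w) * x) = fl (w * (v * x)) + (-1 : ℂ) • fl (v * (w * x)) := by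
    rw [Matrix.sub_mul, Matrix.mul_assoc, Matrix.mul_assoc]
    funext b
    simp [fl, sub_eq_add_neg]
  rw [h3, dd_add_right, dd_smul_right]
  rw [sym] at h1
  linear_combination h2 - h1

theorem LA_conj (hT : IsSubtorsor K T) (h1 : (1 : Matrix N N ℂ) ∈ T) {h w : Matrix N N ℂ} (hh : h ∈ T)
    (hw : w ∈ LA T) : h * w * h⁻¹ ∈ LA T := by
  refine conj_mem' hT hh ?_
  have h2 := conj_mem hT h1 hw
  rwa [inv_one, Matrix.one_mul, Matrix.mul_one] at h2

theorem LA_logder (hT : IsSubtorsor K T) (D : Derivation K ℂ ℂ) {c : Matrix N N ℂ} (hc : c ∈ T) :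
    c.map D * c⁻¹ ∈ LA T := logder_mem hT D hc

theorem LA_dd (h1 : (1 : Matrix N N ℂ) ∈ T) {w : Matrix N N ℂ} (hw : w ∈ LA T) {P : MvPolynomial (N × N) ℂ}
    (hP : Van T P) : dd P (fl 1) (fl w) = 0 := by
  have h2 := hw P hP 1 h1
  rwa [um_fl, Matrix.mul_one] at h2

/-! ### Operations -/

theorem inter {S S' : Set (Matrix N N ℂ)} (hS : IsSubtorsor K S)
    (hS' : IsSubtorsor K S') : IsSubtorsor K (S ∩ S') := by
  refine ⟨fun x hx => hS.isUnit x hx.1, fun x hx y hy z hz => ⟨hS.torsor x hx.1 y hy.1 z hz.1,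
    hS'.torsor x hx.2 y hy.2 z hz.2⟩, ?_⟩
  obtain ⟨I, h1, h2⟩ := hS.algebraic
  obtain ⟨I', h1', h2'⟩ := hS'.algebraic
  refine ⟨I ∪ I', ?_, fun x => ?_⟩
  · rintro p (hp | hp) m
    · exact h1 p hp m
    · exact h1' p hp m
  · rw [Set.mem_inter_iff, h2, h2']
    constructor
    · rintro ⟨⟨h3, h4⟩, -, h5⟩
      refine ⟨h3, ?_⟩
      rintro p (hp | hp)
      · exact h4 p hp
      · exact h5 p hp
    · rintro ⟨h3, h4⟩
      exact ⟨⟨h3, fun p hp => h4 p (Or.inl hp)⟩, h3, fun p hp => h4 p (Or.inr hp)⟩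

/-- a larger field -/
theorem extend {K' : Subfield ℂ} (hK : K ≤ K') (hT : IsSubtorsor K T) : IsSubtorsor K' T := by
  obtain ⟨I, h1, h2⟩ := hT.algebraic
  exact ⟨hT.isUnit, hT.torsor, I, fun p hp m => hK (h1 p hp m), h2⟩

theorem coeff_cp {L : (N × N → ℂ) →ₗ[ℂ] (N × N → ℂ)} (hL : ∀ a b, L (Pi.single a 1) b ∈ K)
    {P : MvPolynomial (N × N) ℂ} (hP : ∀ m, P.coeff m ∈ K) : ∀ m, (cp L P).coeff m ∈ K := by
  obtain ⟨P0, rfl⟩ := exists_map P hP
  let g : N × N → MvPolynomial (N × N) K := fun b => ∑ k, C (⟨L (Pi.single k 1) b, hL k b⟩ : K) * X k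
  have hg : ∀ b, sb L b = (g b).map (algebraMap K ℂ) := by
    intro b
    simp only [sb, g, map_sum, map_mul, map_C, map_X]
    rfl
  have h1 : cp L (P0.map (algebraMap K ℂ)) = (bind₁ g P0).map (algebraMap K ℂ) := by
    unfold cp
    rw [MvPolynomial.map_bind₁]
    congr 1
    congr 1
    funext b
    exact hg b
  intro m
  rw [h1, coeff_map]
  exact (coeff m (bind₁ g P0)).2

/-- translates by matrices over `K` -/
theorem translate (hT : IsSubtorsor K T) {U V : Matrix N N ℂ} (hU : IsUnit U) (hV : IsUnit V)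
    (hUK : ∀ i j, U i j ∈ K) (hVK : ∀ i j, V i j ∈ K) : IsSubtorsor K {x | U * x * V ∈ T} := by
  have hU' := (Matrix.isUnit_iff_isUnit_det U).1 hU
  have hV' := (Matrix.isUnit_iff_isUnit_det V).1 hV
  have hun : ∀ x : Matrix N N ℂ, IsUnit (U * x * V) ↔ IsUnit x := by
    intro x
    rw [Matrix.isUnit_iff_isUnit_det, Matrix.isUnit_iff_isUnit_det, det_mul, det_mul, IsUnit.mul_iff,
      IsUnit.mul_iff]
    exact ⟨fun h => h.1.2, fun h => ⟨⟨hU', h⟩, hV'⟩⟩
  obtain ⟨I, h1, h2⟩ := hT.algebraic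
  refine ⟨fun x hx => (hun x).1 (hT.isUnit _ hx), fun x hx y hy z hz => ?_,
    (cp ((ml U).comp (mr V))) '' I, ?_, fun x => ?_⟩
  · have h3 := hT.torsor _ hx _ hy _ hz
    have h4 : U * x * V * (U * y * V)⁻¹ * (U * z * V) = U * (x * y⁻¹ * z) * V := by
      rw [Matrix.mul_inv_rev, Matrix.mul_inv_rev]
      calc U * x * V * (V⁻¹ * (y⁻¹ * U⁻¹)) * (U * z * V) = U * x * (V * V⁻¹) * y⁻¹ * (U⁻¹ * U) * z * V := by
            simp only [Matrix.mul_assoc]
        _ = _ := by
            rw [Matrix.mul_nonsing_inv V hV', Matrix.nonsing_inv_mul U hU', Matrix.mul_one, Matrix.mul_one]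
            simp only [Matrix.mul_assoc]
    rw [h4] at h3
    exact h3
  · rintro _ ⟨p, hp, rfl⟩
    refine coeff_cp ?_ (h1 p hp)
    intro a b
    rw [LinearMap.comp_apply]
    have h3 : ml U (mr V (Pi.single a 1)) = fl (U * (um (Pi.single a 1) * V)) := rfl
    rw [h3]
    unfold fl
    rw [Matrix.mul_apply]
    refine Subfield.sum_mem _ fun k _ => Subfield.mul_mem _ (hUK _ _) ?_
    rw [Matrix.mul_apply]
    refine Subfield.sum_mem _ fun k' _ => Subfield.mul_mem _ ?_ (hVK _ _)
    unfold um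
    rw [Matrix.of_apply, Pi.single_apply]
    split_ifs
    · exact K.one_mem
    · exact K.zero_mem
  · show U * x * V ∈ T ↔ _
    rw [h2, hun]
    refine and_congr_right fun _ => ?_
    constructor
    · rintro h3 _ ⟨p, hp, rfl⟩
      have h4 := eval_cp ((ml U).comp (mr V)) p (fl x)
      have h5 : ((ml U).comp (mr V)) (fl x) = fl (U * x * V) := by
        rw [LinearMap.comp_apply, mr_fl, ml_fl, Matrix.mul_assoc]
      rw [h5] at h4
      exact h4.trans (h3 p hp)
    · intro h3 p hp
      have h4 := eval_cp ((ml U).comp (mr V)) p (fl x)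
      have h5 : ((ml U).comp (mr V)) (fl x) = fl (U * x * V) := by
        rw [LinearMap.comp_apply, mr_fl, ml_fl, Matrix.mul_assoc]
      rw [h5] at h4
      exact h4.symm.trans (h3 _ ⟨p, hp, rfl⟩)

/-- a nonempty subtorsor over an algebraically closed field has a rational point -/
theorem exists_point' [IsAlgClosed K] (hT : IsSubtorsor K T) {c : Matrix N N ℂ} (hc : c ∈ T) :
    ∃ t ∈ T, ∀ i j, t i j ∈ K := by
  classical
  obtain ⟨I, h1, h2⟩ := hT.algebraic
  let R := MvPolynomial (Option (N × N)) K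
  let em : MvPolynomial (N × N) K →+* R := (rename some).toRingHom
  let dtK : MvPolynomial (N × N) K := (Matrix.of fun i j => (X (i, j) : MvPolynomial (N × N) K)).det
  let J : Ideal R := Ideal.span ({p | ∃ q : MvPolynomial (N × N) K, q.map (algebraMap K ℂ) ∈ I ∧ p = em q} ∪
    {em dtK * X none - 1})
  have hdt : ∀ (F : Type) [CommRing F] (φ : K →+* F) (x : Matrix N N F),
      eval₂ φ (fun b : N × N => x b.1 b.2) dtK = x.det := by
    intro F _ φ x
    show (eval₂Hom φ (fun b : N × N => x b.1 b.2)) dtK = x.det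
    simp only [dtK]
    rw [RingHom.map_det]
    congr 1
    ext i j
    simp [RingHom.mapMatrix_apply]
  have hJ : J ≠ ⊤ := by
    intro hJ
    have h3 : (1 : R) ∈ J := by rw [hJ]; trivial
    let y : Option (N × N) → ℂ := fun o => o.elim (c.det)⁻¹ (fun b => c b.1 b.2)
    have h4 : J ≤ RingHom.ker (eval₂Hom (algebraMap K ℂ) y) := by
      rw [Ideal.span_le]
      rintro p (⟨q, hq, rfl⟩ | rfl)
      · rw [SetLike.mem_coe, RingHom.mem_ker]
        show eval₂ (algebraMap K ℂ) y (rename some q) = 0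
        rw [eval₂_rename]
        have h5 := ((h2 c).1 hc).2 _ hq
        rw [eval_map] at h5
        exact h5
      · rw [SetLike.mem_coe, RingHom.mem_ker, map_sub, map_mul, map_one]
        have h5 : eval₂Hom (algebraMap K ℂ) y (em dtK) = c.det := by
          show eval₂ (algebraMap K ℂ) y (rename some dtK) = c.det
          rw [eval₂_rename]
          exact hdt ℂ (algebraMap K ℂ) c
        rw [h5]
        have h6 : eval₂Hom (algebraMap K ℂ) y (X none) = (c.det)⁻¹ := by simp [y]
        rw [h6, mul_inv_cancel₀, sub_self]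
        exact ((Matrix.isUnit_iff_isUnit_det c).1 (hT.isUnit c hc)).ne_zero
    have h5 := h4 h3
    rw [RingHom.mem_ker, map_one] at h5
    exact one_ne_zero h5
  have hz : (MvPolynomial.zeroLocus K J).Nonempty := by
    by_contra hcon
    rw [Set.not_nonempty_iff_eq_empty] at hcon
    have h3 := MvPolynomial.vanishingIdeal_zeroLocus_eq_radical (K := K) J
    rw [hcon, MvPolynomial.vanishingIdeal_empty] at h3
    exact hJ (Ideal.radical_eq_top.1 h3.symm)
  obtain ⟨y, hy⟩ := hz
  let t : Matrix N N K := Matrix.of fun i j => y (some (i, j))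
  have hyJ : ∀ p ∈ J, aeval y p = 0 := fun p hp => hy p hp
  have hdet : IsUnit t.det := by
    have h3 := hyJ _ (Ideal.subset_span (Or.inr rfl))
    rw [map_sub, map_mul, map_one] at h3
    have h5 : aeval y (em dtK) = t.det := by
      show aeval y (rename some dtK) = t.det
      rw [aeval_rename]
      exact hdt K (algebraMap K K) t
    rw [h5] at h3
    exact IsUnit.of_mul_eq_one _ (sub_eq_zero.1 h3)
  refine ⟨t.map (algebraMap K ℂ), ?_, fun i j => (t i j).2⟩
  rw [h2]
  constructor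
  · rw [Matrix.isUnit_iff_isUnit_det]
    have h3 := RingHom.map_det (algebraMap K ℂ) t
    rw [RingHom.mapMatrix_apply] at h3
    rw [← h3]
    exact hdet.map _
  · intro p hp
    obtain ⟨P0, rfl⟩ := exists_map p (h1 p hp)
    have h3 := hyJ (em P0) (Ideal.subset_span (Or.inl ⟨P0, hp, rfl⟩))
    have h4 : aeval y (em P0) = eval (fun b : N × N => t b.1 b.2) P0 := by
      show aeval y (rename some P0) = _
      rw [aeval_rename, ← coe_aeval_eq_eval]
      rfl
    rw [h4] at h3
    have h5 := eval₂_comp_left (algebraMap K ℂ) (RingHom.id K) (fun b : N × N => t b.1 b.2) P0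
    have h6 : eval₂ (RingHom.id K) (fun b : N × N => t b.1 b.2) P0 = 0 := h3
    rw [h6, map_zero, RingHom.comp_id] at h5
    rw [eval_map]
    exact h5.symm

end Pool.Agent.V1138.OM
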