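import Pool.Agent.V1138.OM.Gen

/-!
# The matrices of a universal 1-motive over an elliptic curve
-/

set_option autoImplicit false
set_option linter.unusedSectionVars false

open Matrix MvPolynomial

namespace Pool.Agent.V1138.OM

open Pool.Agent.TH127.PT Pool.Agent.TH119.MX Pool.Agent.TH119.DR Pool.Agent.Y123.ST

variable {m l : ℕ}

/-- the index set -/
abbrev Idx (m l : ℕ) : Type := (Fin m ⊕ (Fin 2 ⊕ Fin m)) ⊕ (Unit ⊕ Fin l)

/-- the alternating form -/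
def JJ : Matrix (Fin 2) (Fin 2) ℂ := !![0, 1; -1, 0]

/-- the matrix with the parameters `y`, `V`, `W`, `t` -/
def mk (y : Matrix (Fin 2) (Fin 2) ℂ) (V : Matrix (Fin 2) (Fin m) ℂ) (W : Matrix (Fin m) (Fin m) ℂ)
    (t : Matrix Unit (Fin l) ℂ) : Matrix (Idx m l) (Idx m l) ℂ :=
  fromBlocks (fromBlocks (y.det • 1) (fromCols (Vᵀ * JJ * y) W) 0 (fromBlocks y V 0 1)) 0 0
    (fromBlocks (y.det • 1) t 0 1)

/-- the elements of the Lie algebra -/
def lie (X : Matrix (Fin 2) (Fin 2) ℂ) (A : Matrix (Fin 2) (Fin m) ℂ) (B : Matrix (Fin m) (Fin m) ℂ)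
    (s : Matrix Unit (Fin l) ℂ) : Matrix (Idx m l) (Idx m l) ℂ :=
  fromBlocks (fromBlocks (X.trace • 1) (fromCols (Aᵀ * JJ) B) 0 (fromBlocks X A 0 0)) 0 0
    (fromBlocks (X.trace • 1) s 0 0)

/-! ### the blocks -/

def by' (x : Matrix (Idx m l) (Idx m l) ℂ) : Matrix (Fin 2) (Fin 2) ℂ := x.toBlocks₁₁.toBlocks₂₂.toBlocks₁₁
def bV (x : Matrix (Idx m l) (Idx m l) ℂ) : Matrix (Fin 2) (Fin m) ℂ := x.toBlocks₁₁.toBlocks₂₂.toBlocks₁₂
def bW (x : Matrix (Idx m l) (Idx m l) ℂ) : Matrix (Fin m) (Fin m) ℂ := x.toBlocks₁₁.toBlocks₁₂.toCols₂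
def bt (x : Matrix (Idx m l) (Idx m l) ℂ) : Matrix Unit (Fin l) ℂ := x.toBlocks₂₂.toBlocks₁₂

section blocks

variable (y : Matrix (Fin 2) (Fin 2) ℂ) (V : Matrix (Fin 2) (Fin m) ℂ) (W : Matrix (Fin m) (Fin m) ℂ)
    (t : Matrix Unit (Fin l) ℂ)

@[simp] theorem by_mk : by' (mk y V W t) = y := rfl
@[simp] theorem bV_mk : bV (mk y V W t) = V := rfl
@[simp] theorem bW_mk : bW (mk y V W t) = W := rfl
@[simp] theorem bt_mk : bt (mk y V W t) = t := rfl
@[simp] theorem by_lie : by' (lie y V W t) = y := rfl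
@[simp] theorem bV_lie : bV (lie y V W t) = V := rfl
@[simp] theorem bW_lie : bW (lie y V W t) = W := rfl
@[simp] theorem bt_lie : bt (lie y V W t) = t := rfl

end blocks

theorem det_form (y : Matrix (Fin 2) (Fin 2) ℂ) : yᵀ * JJ * y = y.det • JJ := by
  ext i j
  fin_cases i <;> fin_cases j <;>
    simp [JJ, Matrix.mul_apply, Fin.sum_univ_two, Matrix.det_fin_two] <;> ring

theorem tr_form (X : Matrix (Fin 2) (Fin 2) ℂ) : JJ * X + Xᵀ * JJ = X.trace • JJ := by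
  ext i j
  rw [Matrix.add_apply, Matrix.mul_apply, Matrix.mul_apply, Fin.sum_univ_two, Fin.sum_univ_two]
  fin_cases i <;> fin_cases j <;>
    simp [JJ, Matrix.trace_fin_two] <;> ring

theorem JJ_t : JJᵀ = -JJ := by
  ext i j
  fin_cases i <;> fin_cases j <;> simp [JJ]

theorem smul_cols {p q r : Type*} (a : ℂ) (A : Matrix p q ℂ) (B : Matrix p r ℂ) :
    a • fromCols A B = fromCols (a • A) (a • B) := by
  ext i (j | j) <;> simp

theorem add_cols {p q r : Type*} (A A' : Matrix p q ℂ) (B B' : Matrix p r ℂ) :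
    fromCols A B + fromCols A' B' = fromCols (A + A') (B + B') := by
  ext i (j | j) <;> simp

theorem mk_mul (y : Matrix (Fin 2) (Fin 2) ℂ) (V : Matrix (Fin 2) (Fin m) ℂ) (W : Matrix (Fin m) (Fin m) ℂ)
    (t : Matrix Unit (Fin l) ℂ) (y' : Matrix (Fin 2) (Fin 2) ℂ) (V' : Matrix (Fin 2) (Fin m) ℂ)
    (W' : Matrix (Fin m) (Fin m) ℂ) (t' : Matrix Unit (Fin l) ℂ) :
    mk y V W t * mk y' V' W' t' =
      mk (y * y') (y * V' + V) (y.det • W' + Vᵀ * JJ * y * V' + W) (y.det • t' + t) := by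
  have hZ : (y * V' + V)ᵀ * JJ * (y * y') = y.det • (V'ᵀ * JJ * y') + Vᵀ * JJ * y * y' := by
    rw [transpose_add, transpose_mul, Matrix.add_mul, Matrix.add_mul]
    congr 1
    · calc V'ᵀ * yᵀ * JJ * (y * y') = V'ᵀ * (yᵀ * JJ * y) * y' := by simp only [Matrix.mul_assoc]
        _ = _ := by rw [det_form]; simp only [Matrix.mul_smul, Matrix.smul_mul]
    · simp only [Matrix.mul_assoc]
  unfold mk
  rw [hZ]
  simp only [fromBlocks_multiply, Matrix.mul_zero, Matrix.zero_mul, add_zero, zero_add, Matrix.mul_one,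
    Matrix.one_mul, Matrix.smul_mul, Matrix.mul_smul, fromCols_mul_fromBlocks, smul_smul, smul_cols, add_cols, det_mul,
    smul_zero, add_assoc, mul_comm y'.det y.det]

theorem mk_one : mk (m := m) (l := l) 1 0 0 0 = 1 := by
  unfold mk
  rw [det_one, transpose_zero, Matrix.zero_mul, Matrix.zero_mul]
  ext i j
  rcases i with (i | i | i) | (i | i) <;> rcases j with (j | j | j) | (j | j) <;>
    simp [Matrix.one_apply, Sum.inl.injEq, Sum.inr.injEq]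

theorem lie_mul (X : Matrix (Fin 2) (Fin 2) ℂ) (A : Matrix (Fin 2) (Fin m) ℂ) (B : Matrix (Fin m) (Fin m) ℂ)
    (s : Matrix Unit (Fin l) ℂ) (X' : Matrix (Fin 2) (Fin 2) ℂ) (A' : Matrix (Fin 2) (Fin m) ℂ)
    (B' : Matrix (Fin m) (Fin m) ℂ) (s' : Matrix Unit (Fin l) ℂ) :
    lie X A B s * lie X' A' B' s' = fromBlocks (fromBlocks ((X'.trace * X.trace) • 1)
      (fromCols (X.trace • (A'ᵀ * JJ) + Aᵀ * JJ * X') (X.trace • B' + Aᵀ * JJ * A')) 0
      (fromBlocks (X * X') (X * A') 0 0)) 0 0 (fromBlocks ((X'.trace * X.trace) • 1) (X.trace • s') 0 0) := by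
  unfold lie
  simp only [fromBlocks_multiply, Matrix.mul_zero, Matrix.zero_mul, add_zero, zero_add, Matrix.mul_one,
    Matrix.one_mul, Matrix.smul_mul, Matrix.mul_smul, fromCols_mul_fromBlocks, smul_smul, smul_cols, add_cols,
    smul_zero]

/-- brackets -/
theorem lie_bracket (X : Matrix (Fin 2) (Fin 2) ℂ) (A : Matrix (Fin 2) (Fin m) ℂ) (B : Matrix (Fin m) (Fin m) ℂ)
    (s : Matrix Unit (Fin l) ℂ) (X' : Matrix (Fin 2) (Fin 2) ℂ) (A' : Matrix (Fin 2) (Fin m) ℂ)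
    (B' : Matrix (Fin m) (Fin m) ℂ) (s' : Matrix Unit (Fin l) ℂ) :
    lie X A B s * lie X' A' B' s' - lie X' A' B' s' * lie X A B s =
      lie (X * X' - X' * X) (X * A' - X' * A)
        (X.trace • B' - X'.trace • B + (Aᵀ * JJ * A' - A'ᵀ * JJ * A)) (X.trace • s' - X'.trace • s) := by
  have h1 : ∀ (X : Matrix (Fin 2) (Fin 2) ℂ) (A : Matrix (Fin 2) (Fin m) ℂ),
      (X * A)ᵀ * JJ = X.trace • (Aᵀ * JJ) - Aᵀ * JJ * X := by
    intro X A
    rw [transpose_mul, Matrix.mul_assoc, ← Matrix.mul_smul, ← tr_form, Matrix.mul_add, ← Matrix.mul_assoc,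
      ← Matrix.mul_assoc]
    abel
  have h2 : (X * X' - X' * X).trace = 0 := by
    rw [trace_sub, trace_mul_comm, sub_self]
  have h3 : (X * A' - X' * A)ᵀ * JJ = X.trace • (A'ᵀ * JJ) + Aᵀ * JJ * X' - (X'.trace • (Aᵀ * JJ) + A'ᵀ * JJ * X) := by
    rw [transpose_sub, Matrix.sub_mul, h1, h1]
    abel
  rw [sub_eq_iff_eq_add, lie_mul, lie_mul]
  unfold lie
  rw [h2, h3, fromBlocks_add, fromBlocks_add, fromBlocks_add, fromBlocks_add, add_cols]
  congr 1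
  · congr 1
    · rw [zero_smul, zero_add, mul_comm]
    · congr 1
      · abel
      · abel
    · simp
    · congr 1
      · abel
      · abel
      · simp
      · simp
  · simp
  · simp
  · congr 1
    · rw [zero_smul, zero_add, mul_comm]
    · abel
    · simp
    · simp

/-- infinitesimal translations -/
theorem lie_mk (X : Matrix (Fin 2) (Fin 2) ℂ) (A : Matrix (Fin 2) (Fin m) ℂ) (B : Matrix (Fin m) (Fin m) ℂ)
    (s : Matrix Unit (Fin l) ℂ) (y : Matrix (Fin 2) (Fin 2) ℂ) (V : Matrix (Fin 2) (Fin m) ℂ)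
    (W : Matrix (Fin m) (Fin m) ℂ) (t : Matrix Unit (Fin l) ℂ) :
    by' (lie X A B s * mk y V W t) = X * y ∧ bV (lie X A B s * mk y V W t) = X * V + A ∧
    bt (lie X A B s * mk y V W t) = X.trace • t + s := by
  unfold lie mk
  simp only [fromBlocks_multiply, Matrix.mul_zero, Matrix.zero_mul, add_zero, zero_add, Matrix.mul_one,
    Matrix.one_mul, Matrix.smul_mul, Matrix.mul_smul, fromCols_mul_fromBlocks, smul_smul, smul_cols, add_cols,
    smul_zero]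
  exact ⟨rfl, rfl, rfl⟩

theorem mk_lie (X : Matrix (Fin 2) (Fin 2) ℂ) (A : Matrix (Fin 2) (Fin m) ℂ) (B : Matrix (Fin m) (Fin m) ℂ)
    (s : Matrix Unit (Fin l) ℂ) (y : Matrix (Fin 2) (Fin 2) ℂ) (V : Matrix (Fin 2) (Fin m) ℂ)
    (W : Matrix (Fin m) (Fin m) ℂ) (t : Matrix Unit (Fin l) ℂ) :
    by' (mk y V W t * lie X A B s) = y * X ∧ bV (mk y V W t * lie X A B s) = y * A := by
  unfold lie mk
  simp only [fromBlocks_multiply, Matrix.mul_zero, Matrix.zero_mul, add_zero, zero_add, Matrix.mul_one,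
    Matrix.one_mul, Matrix.smul_mul, Matrix.mul_smul, fromCols_mul_fromBlocks, smul_smul, smul_cols, add_cols,
    smul_zero]
  exact ⟨rfl, rfl⟩

/-! ### the group -/

/-- the group -/
def GG (m l : ℕ) : Set (Matrix (Idx m l) (Idx m l) ℂ) :=
  {x | ∃ y V W t, y.det ≠ 0 ∧ W - Wᵀ = Vᵀ * JJ * V ∧ x = mk y V W t}

theorem GG_one : (1 : Matrix (Idx m l) (Idx m l) ℂ) ∈ GG m l :=
  ⟨1, 0, 0, 0, by simp, by simp, mk_one.symm⟩

theorem rel_mul {y : Matrix (Fin 2) (Fin 2) ℂ} {V : Matrix (Fin 2) (Fin m) ℂ} {W : Matrix (Fin m) (Fin m) ℂ}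
    {V' : Matrix (Fin 2) (Fin m) ℂ} {W' : Matrix (Fin m) (Fin m) ℂ} (h : W - Wᵀ = Vᵀ * JJ * V)
    (h' : W' - W'ᵀ = V'ᵀ * JJ * V') :
    (y.det • W' + Vᵀ * JJ * y * V' + W) - (y.det • W' + Vᵀ * JJ * y * V' + W)ᵀ =
      (y * V' + V)ᵀ * JJ * (y * V' + V) := by
  have h1 : (y * V' + V)ᵀ * JJ * (y * V' + V) = y.det • (V'ᵀ * JJ * V') + Vᵀ * JJ * y * V' +
      (V'ᵀ * yᵀ * JJ * V + Vᵀ * JJ * V) := by
    rw [transpose_add, transpose_mul, Matrix.add_mul, Matrix.add_mul, Matrix.mul_add, Matrix.mul_add]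
    have h2 : V'ᵀ * yᵀ * JJ * (y * V') = y.det • (V'ᵀ * JJ * V') := by
      calc V'ᵀ * yᵀ * JJ * (y * V') = V'ᵀ * (yᵀ * JJ * y) * V' := by simp only [Matrix.mul_assoc]
        _ = _ := by rw [det_form]; simp only [Matrix.mul_smul, Matrix.smul_mul]
    rw [h2, ← Matrix.mul_assoc (Vᵀ * JJ) y V']
    abel
  rw [h1, ← h, ← h']
  simp only [transpose_add, transpose_mul, transpose_smul, transpose_transpose, JJ_t, smul_sub, Matrix.mul_neg,
    Matrix.neg_mul, Matrix.mul_assoc]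
  abel

theorem GG_mul {x x' : Matrix (Idx m l) (Idx m l) ℂ} (hx : x ∈ GG m l) (hx' : x' ∈ GG m l) : x * x' ∈ GG m l := by
  obtain ⟨y, V, W, t, h1, h2, rfl⟩ := hx
  obtain ⟨y', V', W', t', h1', h2', rfl⟩ := hx'
  refine ⟨_, _, _, _, ?_, rel_mul h2 h2', mk_mul _ _ _ _ _ _ _ _⟩
  rw [det_mul]
  exact mul_ne_zero h1 h1'

theorem exists_inv {x : Matrix (Idx m l) (Idx m l) ℂ} (hx : x ∈ GG m l) : ∃ x' ∈ GG m l, x * x' = 1 := by
  obtain ⟨y, V, W, t, h1, h2, rfl⟩ := hx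
  have hu : IsUnit y.det := isUnit_iff_ne_zero.2 h1
  refine ⟨mk y⁻¹ (-(y⁻¹ * V)) (y.det⁻¹ • (Vᵀ * JJ * V - W)) (-(y.det⁻¹ • t)), ⟨_, _, _, _, ?_, ?_, rfl⟩, ?_⟩
  · rw [det_nonsing_inv, Ring.inverse_eq_inv']
    exact inv_ne_zero h1
  · have h3 : (y⁻¹)ᵀ * JJ * y⁻¹ = y.det⁻¹ • JJ := by
      rw [det_form, det_nonsing_inv, Ring.inverse_eq_inv']
    have h4 : (-(y⁻¹ * V))ᵀ * JJ * (-(y⁻¹ * V)) = y.det⁻¹ • (Vᵀ * JJ * V) := by
      rw [transpose_neg, Matrix.neg_mul, Matrix.neg_mul, Matrix.mul_neg, neg_neg, transpose_mul]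
      calc Vᵀ * y⁻¹ᵀ * JJ * (y⁻¹ * V) = Vᵀ * ((y⁻¹)ᵀ * JJ * y⁻¹) * V := by simp only [Matrix.mul_assoc]
        _ = _ := by rw [h3]; simp only [Matrix.mul_smul, Matrix.smul_mul]
    rw [h4, transpose_smul, ← smul_sub]
    congr 1
    rw [transpose_sub]
    have h5 : (Vᵀ * JJ * V)ᵀ = -(Vᵀ * JJ * V) := by
      simp only [transpose_mul, transpose_transpose, JJ_t, Matrix.mul_neg, Matrix.neg_mul, Matrix.mul_assoc]
    rw [h5]
    have h6 : W - Wᵀ = Vᵀ * JJ * V := h2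
    rw [← h6]
    abel
  · rw [mk_mul, ← mk_one]
    congr 1
    · exact Matrix.mul_nonsing_inv y hu
    · rw [Matrix.mul_neg, Matrix.mul_nonsing_inv_cancel_left y V hu, neg_add_cancel]
    · rw [smul_smul, mul_inv_cancel₀ h1, one_smul, Matrix.mul_neg, Matrix.mul_assoc (Vᵀ * JJ) y,
        Matrix.mul_nonsing_inv_cancel_left y V hu]
      abel
    · rw [smul_neg, smul_smul, mul_inv_cancel₀ h1, one_smul, neg_add_cancel]

theorem isUnit_of {x : Matrix (Idx m l) (Idx m l) ℂ} (hx : x ∈ GG m l) : IsUnit x := by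
  obtain ⟨x', -, h⟩ := exists_inv hx
  exact IsUnit.of_mul_eq_one x' h

theorem GG_inv {x : Matrix (Idx m l) (Idx m l) ℂ} (hx : x ∈ GG m l) : x⁻¹ ∈ GG m l := by
  obtain ⟨x', h1, h⟩ := exists_inv hx
  rwa [Matrix.inv_eq_right_inv h]

end Pool.Agent.V1138.OM
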