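import Pool.Agent.V1138.OM.Gen

/-!
# Subspaces of the two by two matrices
-/

set_option autoImplicit false
set_option linter.unusedSectionVars false

open Matrix

namespace Pool.Agent.V1138.OM

open Pool.Agent.TH119.DR

variable {K : Subfield ℂ}

/-- no relations of rank one -/
def NoR (K : Subfield ℂ) (c : Matrix (Fin 2) (Fin 2) ℂ) : Prop :=
  ∀ a w : Fin 2 → ℂ, (∀ i, a i ∈ K) → (∀ i, w i ∈ K) → a ⬝ᵥ (c *ᵥ w) = 0 → a = 0 ∨ w = 0

/-- binary quadratic forms over algebraically closed fields -/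
theorem factor [IsAlgClosed K] {α β γ : ℂ} (hα : α ∈ K) (hβ : β ∈ K) (hγ : γ ∈ K) (h0 : ¬ (α = 0 ∧ β = 0 ∧ γ = 0)) :
    ∃ a b : Fin 2 → ℂ, (∀ i, a i ∈ K) ∧ (∀ i, b i ∈ K) ∧ a ≠ 0 ∧ b ≠ 0 ∧
      ∀ u : Fin 2 → ℂ, α * u 0 ^ 2 + β * (u 0 * u 1) + γ * u 1 ^ 2 = (a ⬝ᵥ u) * (b ⬝ᵥ u) := by
  by_cases h1 : α = 0
  · refine ⟨![0, 1], ![β, γ], ?_, ?_, ?_, ?_, ?_⟩
    · intro i
      fin_cases i
      · exact K.zero_mem
      · exact K.one_mem
    · intro i
      fin_cases i
      · exact hβ
      · exact hγ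
    · intro h
      have := congrFun h 1
      simp at this
    · intro h
      have e1 := congrFun h 0
      have e2 := congrFun h 1
      exact h0 ⟨h1, by simpa using e1, by simpa using e2⟩
    · intro u
      rw [h1]
      simp [dotProduct, Fin.sum_univ_two]
      ring
  · obtain ⟨r, hr⟩ := IsAlgClosed.exists_root
      (Polynomial.C (⟨α, hα⟩ : K) * Polynomial.X ^ 2 + Polynomial.C (⟨β, hβ⟩ : K) * Polynomial.X +
        Polynomial.C (⟨γ, hγ⟩ : K)) (by
        rw [Polynomial.degree_quadratic]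
        · decide
        · intro h
          exact h1 (congrArg Subtype.val h))
    have hr' : α * (r : ℂ) ^ 2 + β * r + γ = 0 := by
      have h := congrArg (Subtype.val : K → ℂ) hr
      simpa using h
    refine ⟨![1, -r], ![α, β + α * r], ?_, ?_, ?_, ?_, ?_⟩
    · intro i
      fin_cases i
      · exact K.one_mem
      · exact K.neg_mem r.2
    · intro i
      fin_cases i
      · exact hα
      · exact K.add_mem hβ (K.mul_mem hα r.2)
    · intro h
      have := congrFun h 0
      simp at this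
    · intro h
      exact h1 (by simpa using congrFun h 0)
    · intro u
      simp only [dotProduct, Fin.sum_univ_two, Matrix.cons_val_zero, Matrix.cons_val_one]
      linear_combination (u 1 ^ 2) * hr'

theorem T1 [IsAlgClosed K] {c X : Matrix (Fin 2) (Fin 2) ℂ} (hR : NoR K c) (hc : c.det ≠ 0) (hX : ∀ i j, X i j ∈ K)
    (h0 : X ≠ 0) (htr : X.trace = 0) {χ : ℂ} (h : c * X = χ • (X * c)) : False := by
  have hχ : χ ≠ 0 := by
    rintro rfl
    rw [zero_smul] at h
    apply h0
    have h1 := congrArg (fun M => c⁻¹ * M) h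
    simp only [Matrix.mul_zero] at h1
    rwa [← Matrix.mul_assoc, Matrix.nonsing_inv_mul c (isUnit_iff_ne_zero.2 hc), Matrix.one_mul] at h1
  rw [Matrix.trace_fin_two] at htr
  have h11 : X 1 1 = -X 0 0 := by linear_combination htr
  obtain ⟨a, b, ha, hb, ha0, hb0, hab⟩ := factor (K := K) (α := X 1 0) (β := -(2 * X 0 0)) (γ := -X 0 1) (hX 1 0)
    (K.neg_mem (K.mul_mem (by exact_mod_cast (natCast_mem K 2)) (hX 0 0))) (K.neg_mem (hX 0 1)) (by
      rintro ⟨h1, h2, h3⟩
      apply h0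
      have e1 : X 0 0 = 0 := by linear_combination (-1 / 2 : ℂ) * h2
      ext i j
      fin_cases i <;> fin_cases j
      · exact e1
      · show X 0 1 = 0
        linear_combination -h3
      · exact h1
      · show X 1 1 = 0
        rw [h11, e1, neg_zero])
  set w : Fin 2 → ℂ := ![-a 1, a 0] with hw
  have hw0 : w ≠ 0 := by
    intro h1
    apply ha0
    have e0 := congrFun h1 0
    have e1 := congrFun h1 1
    simp [hw] at e0 e1
    funext i
    fin_cases i
    · exact e1
    · exact e0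
  have hwK : ∀ i, w i ∈ K := by
    intro i
    fin_cases i
    · exact K.neg_mem (ha 1)
    · exact ha 0
  have haw : a ⬝ᵥ w = 0 := by
    simp [hw, dotProduct, Fin.sum_univ_two]
    ring
  have hq1 := hab w
  rw [haw, zero_mul] at hq1
  have e : ∀ i j, (c * X) i j = χ * (X * c) i j := fun i j => by
    rw [h]; rfl
  have e00 := e 0 0
  have e01 := e 0 1
  have e10 := e 1 0
  have e11 := e 1 1
  simp only [Matrix.mul_apply, Fin.sum_univ_two, h11] at e00 e01 e10 e11
  have hq2 := hab (c *ᵥ w)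
  have hu0 : (c *ᵥ w) 0 = c 0 0 * w 0 + c 0 1 * w 1 := by
    simp [Matrix.mulVec, dotProduct, Fin.sum_univ_two]
  have hu1 : (c *ᵥ w) 1 = c 1 0 * w 0 + c 1 1 * w 1 := by
    simp [Matrix.mulVec, dotProduct, Fin.sum_univ_two]
  have hq3 : χ * (X 1 0 * (c *ᵥ w) 0 ^ 2 + -(2 * X 0 0) * ((c *ᵥ w) 0 * (c *ᵥ w) 1) + -X 0 1 * (c *ᵥ w) 1 ^ 2) = 0 := by
    rw [hu0, hu1]
    linear_combination (-(c 0 0 * w 0 + c 0 1 * w 1)) * (w 0 * e10 + w 1 * e11) +
      (c 1 0 * w 0 + c 1 1 * w 1) * (w 0 * e00 + w 1 * e01) + (c 0 0 * c 1 1 - c 0 1 * c 1 0) * hq1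
  rw [hq2] at hq3
  rcases mul_eq_zero.1 ((mul_eq_zero.1 hq3).resolve_left hχ) with h1 | h1
  · rcases hR a w ha hwK h1 with h2 | h2
    · exact ha0 h2
    · exact hw0 h2
  · rcases hR b w hb hwK h1 with h2 | h2
    · exact hb0 h2
    · exact hw0 h2

/-- commuting traceless matrices are proportional -/
theorem comm_traceless {X Y : Matrix (Fin 2) (Fin 2) ℂ} (hX : X.trace = 0) (hY : Y.trace = 0) (h0 : X ≠ 0)
    (h : X * Y - Y * X = 0) : ∃ a : ℂ, Y = a • X := by
  rw [Matrix.trace_fin_two] at hX hY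
  have hX' : X 1 1 = -X 0 0 := by linear_combination hX
  have hY' : Y 1 1 = -Y 0 0 := by linear_combination hY
  have e : ∀ i j, (X * Y) i j - (Y * X) i j = 0 := fun i j => by
    rw [← Matrix.sub_apply, h]; rfl
  have e00 := e 0 0
  have e01 := e 0 1
  have e10 := e 1 0
  simp only [Matrix.mul_apply, Fin.sum_univ_two, hX', hY'] at e00 e01 e10
  have key : ∀ a : ℂ, Y 0 0 = a * X 0 0 → Y 0 1 = a * X 0 1 → Y 1 0 = a * X 1 0 → Y = a • X := by
    intro a h1 h2 h3
    ext i j
    fin_cases i <;> fin_cases j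
    · exact h1
    · exact h2
    · exact h3
    · show Y 1 1 = a * X 1 1
      rw [hX', hY', h1]
      ring
  by_cases h1 : X 0 0 = 0
  · by_cases h2 : X 0 1 = 0
    · have h3 : X 1 0 ≠ 0 := by
        intro h3
        apply h0
        ext i j
        fin_cases i <;> fin_cases j
        · exact h1
        · exact h2
        · exact h3
        · show X 1 1 = 0
          rw [hX', h1, neg_zero]
      refine ⟨Y 1 0 / X 1 0, key _ ?_ ?_ ?_⟩
      · field_simp
        linear_combination (1 / 2 : ℂ) * e10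
      · field_simp
        linear_combination -e00
      · field_simp
    · refine ⟨Y 0 1 / X 0 1, key _ ?_ ?_ ?_⟩
      · field_simp
        linear_combination (-1 / 2 : ℂ) * e01
      · field_simp
      · field_simp
        linear_combination e00
  · refine ⟨Y 0 0 / X 0 0, key _ ?_ ?_ ?_⟩
    · field_simp
    · field_simp
      linear_combination (1 / 2 : ℂ) * e01
    · field_simp
      linear_combination (-1 / 2 : ℂ) * e10

theorem trace_map (f : ℂ →ₗ[K] ℂ) (X : Matrix (Fin 2) (Fin 2) ℂ) : (X.map f).trace = f X.trace := by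
  rw [Matrix.trace_fin_two, Matrix.trace_fin_two, map_add]
  rfl

theorem exists_lin {z : ℂ} (hz : z ≠ 0) : ∃ f : ℂ →ₗ[K] ℂ, (∀ x, f x ∈ K) ∧ f z ≠ 0 := by
  classical
  obtain ⟨J, s, e, f, hf, h⟩ := exists_coords K {z}
  have h1 := h z (Finset.mem_singleton_self z)
  by_contra hcon
  push Not at hcon
  apply hz
  rw [h1]
  refine Finset.sum_eq_zero fun j _ => ?_
  rw [hcon (f j) (hf j), mul_zero]

theorem der_det (D : Derivation K ℂ ℂ) {c : Matrix (Fin 2) (Fin 2) ℂ} (hc : c.det ≠ 0) :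
    (c.map D * c⁻¹).trace * c.det = D c.det := by
  have h1 : c.map D * c⁻¹ * c = c.map D := by
    rw [Matrix.mul_assoc, Matrix.nonsing_inv_mul c (isUnit_iff_ne_zero.2 hc), Matrix.mul_one]
  set M := c.map D * c⁻¹ with hM
  have e : ∀ i j, (M * c) i j = D (c i j) := fun i j => by rw [h1]; rfl
  have e00 := e 0 0
  have e01 := e 0 1
  have e10 := e 1 0
  have e11 := e 1 1
  simp only [Matrix.mul_apply, Fin.sum_univ_two] at e00 e01 e10 e11
  rw [Matrix.trace_fin_two, Matrix.det_fin_two, map_sub, D.leibniz, D.leibniz, ← e00, ← e01, ← e10, ← e11]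
  simp only [smul_eq_mul]
  ring

/-- **The main step**: a Lie algebra of two by two matrices over `K` which is normalised by `c` and contains the
logarithmic derivatives of `c` contains all matrices. -/
theorem full_two [IsAlgClosed K] (hKa : ∀ z : ℂ, (∀ D : Derivation K ℂ ℂ, D z = 0) → z ∈ K)
    {c : Matrix (Fin 2) (Fin 2) ℂ} (hR : NoR K c) (hc : c.det ≠ 0) {D₀ : Derivation K ℂ ℂ} (hD₀ : D₀ c.det ≠ 0)
    (P : Submodule ℂ (Matrix (Fin 2) (Fin 2) ℂ)) (hP : ∀ (f : ℂ →ₗ[K] ℂ), ∀ X ∈ P, X.map f ∈ P)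
    (hconj : ∀ X ∈ P, c * X * c⁻¹ ∈ P) (hder : ∀ D : Derivation K ℂ ℂ, c.map D * c⁻¹ ∈ P) : P = ⊤ := by
  classical
  have hu : IsUnit c.det := isUnit_iff_ne_zero.2 hc
  have hcc : c⁻¹ * c = 1 := Matrix.nonsing_inv_mul c hu
  have hcc' : c * c⁻¹ = 1 := Matrix.mul_nonsing_inv c hu
  have htrc : ∀ X : Matrix (Fin 2) (Fin 2) ℂ, (c * X * c⁻¹).trace = X.trace := by
    intro X
    rw [Matrix.trace_mul_comm, ← Matrix.mul_assoc, hcc, Matrix.one_mul]
  -- an element over `K` with trace one
  obtain ⟨ξ, hξP, hξK, hξt⟩ : ∃ ξ ∈ P, (∀ i j, ξ i j ∈ K) ∧ ξ.trace = 1 := by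
    have h1 : (c.map D₀ * c⁻¹).trace ≠ 0 := by
      intro h
      apply hD₀
      rw [← der_det D₀ hc, h, zero_mul]
    obtain ⟨f, hf, hf0⟩ := exists_lin (K := K) h1
    refine ⟨(f (c.map D₀ * c⁻¹).trace)⁻¹ • (c.map D₀ * c⁻¹).map f, P.smul_mem _ (hP f _ (hder D₀)), ?_, ?_⟩
    · intro i j
      exact K.mul_mem (K.inv_mem (hf _)) (hf _)
    · rw [Matrix.trace_smul, trace_map, smul_eq_mul, inv_mul_cancel₀ hf0]
  -- the traceless part
  let P₀ : Submodule ℂ (Matrix (Fin 2) (Fin 2) ℂ) := P ⊓ LinearMap.ker (Matrix.traceLinearMap (Fin 2) ℂ ℂ)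
  have hP₀ : ∀ X, X ∈ P₀ ↔ X ∈ P ∧ X.trace = 0 := fun X => by
    rw [Submodule.mem_inf, LinearMap.mem_ker]
    rfl
  have hP₀f : ∀ (f : ℂ →ₗ[K] ℂ), ∀ X ∈ P₀, X.map f ∈ P₀ := by
    intro f X hX
    rw [hP₀] at hX ⊢
    exact ⟨hP f X hX.1, by rw [trace_map, hX.2, map_zero]⟩
  have hspan : ∀ X ∈ P₀, X ∈ Submodule.span ℂ {Y | Y ∈ P₀ ∧ ∀ a b, Y a b ∈ K} := fun X hX => mat_coords P₀ hP₀f hX
  have hconj₀ : ∀ X ∈ P₀, c * X * c⁻¹ ∈ P₀ := by
    intro X hX
    rw [hP₀] at hX ⊢
    exact ⟨hconj X hX.1, by rw [htrc, hX.2]⟩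
  have hT1 : ∀ X : Matrix (Fin 2) (Fin 2) ℂ, (∀ i j, X i j ∈ K) → X.trace = 0 → ∀ χ : ℂ, c * X * c⁻¹ = χ • X → X = 0 := by
    intro X hXK hXt χ h
    by_contra h0
    refine T1 hR hc hXK h0 hXt (χ := χ) ?_
    have h1 := congrArg (fun M => M * c) h
    simp only [Matrix.mul_assoc, hcc, Matrix.mul_one, Matrix.smul_mul] at h1
    exact h1
  by_cases hA : ∀ X ∈ P₀, (∀ i j, X i j ∈ K) → X = 0
  · -- the space is one-dimensional
    exfalso
    have hP0 : ∀ X ∈ P₀, X = 0 := by
      intro X hX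
      have h1 := hspan X hX
      have h2 : {Y | Y ∈ P₀ ∧ ∀ a b, Y a b ∈ K} ⊆ ({0} : Set (Matrix (Fin 2) (Fin 2) ℂ)) := by
        rintro Y ⟨hY1, hY2⟩
        exact hA Y hY1 hY2
      have h3 := Submodule.span_mono (R := ℂ) h2 h1
      rwa [Submodule.span_zero_singleton, Submodule.mem_bot] at h3
    have hone : ∀ Y ∈ P, Y = Y.trace • ξ := by
      intro Y hY
      have h1 := hP0 (Y - Y.trace • ξ) ((hP₀ _).2 ⟨P.sub_mem hY (P.smul_mem _ hξP), by
        rw [Matrix.trace_sub, Matrix.trace_smul, hξt, smul_eq_mul, mul_one, sub_self]⟩)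
      exact sub_eq_zero.1 h1
    have hcom : c * ξ * c⁻¹ = ξ := by
      have := hone _ (hconj ξ hξP)
      rwa [htrc, hξt, one_smul] at this
    have hhalf : ξ = (1 / 2 : ℂ) • (1 : Matrix (Fin 2) (Fin 2) ℂ) := by
      have h2K : (1 / 2 : ℂ) ∈ K := K.div_mem K.one_mem (by exact_mod_cast natCast_mem K 2)
      have h1 := hT1 (ξ - (1 / 2 : ℂ) • 1) (fun i j => by
        rw [Matrix.sub_apply, Matrix.smul_apply, Matrix.one_apply]
        refine K.sub_mem (hξK i j) (K.mul_mem h2K ?_)
        split_ifs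
        · exact K.one_mem
        · exact K.zero_mem) (by
        rw [Matrix.trace_sub, Matrix.trace_smul, hξt, Matrix.trace_one]
        simp) 1 (by
        rw [Matrix.mul_sub, Matrix.sub_mul, hcom, Matrix.mul_smul, Matrix.smul_mul, Matrix.mul_one, hcc', one_smul])
      exact sub_eq_zero.1 h1
    have hDc : ∀ D : Derivation K ℂ ℂ, ∃ g : ℂ, ∀ i j, D (c i j) = g * c i j := by
      intro D
      have h1 := hone _ (hder D)
      refine ⟨(c.map D * c⁻¹).trace * (1 / 2), fun i j => ?_⟩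
      have h2 : c.map D = ((c.map D * c⁻¹).trace * (1 / 2)) • c := by
        have h3 := congrArg (fun M => M * c) h1
        simp only [hhalf] at h3
        rw [Matrix.mul_assoc, hcc, Matrix.mul_one, smul_smul, Matrix.smul_mul, Matrix.one_mul] at h3
        exact h3
      exact congrFun (congrFun h2 i) j
    have hv0 : (![1, 0] : Fin 2 → ℂ) ≠ 0 := fun h => by simpa using congrFun h 0
    have hvK : ∀ i, (![1, 0] : Fin 2 → ℂ) i ∈ K := by
      intro i
      fin_cases i
      · exact K.one_mem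
      · exact K.zero_mem
    have hc00 : c 0 0 ≠ 0 := by
      intro h
      rcases hR ![1, 0] ![1, 0] hvK hvK (by simp [dotProduct, Matrix.mulVec, Fin.sum_univ_two, h]) with h1 | h1
      · exact hv0 h1
      · exact hv0 h1
    have hr : c 0 1 / c 0 0 ∈ K := by
      apply hKa
      intro D
      obtain ⟨g, hg⟩ := hDc D
      have h1 : c 0 0 * (c 0 1 / c 0 0) = c 0 1 := by field_simp
      have h2 := congrArg D h1
      rw [D.leibniz, hg, hg, smul_eq_mul, smul_eq_mul] at h2
      have h3 : c 0 0 * D (c 0 1 / c 0 0) = 0 := by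
        have h4 : c 0 1 / c 0 0 * (g * c 0 0) = g * c 0 1 := by field_simp
        rw [h4] at h2
        linear_combination h2
      exact (mul_eq_zero.1 h3).resolve_left hc00
    rcases hR ![1, 0] ![-(c 0 1 / c 0 0), 1] hvK (by
        intro i
        fin_cases i
        · exact K.neg_mem hr
        · exact K.one_mem) (by
        simp [dotProduct, Matrix.mulVec, Fin.sum_univ_two]
        field_simp
        ring) with h1 | h1
    · exact hv0 h1
    · have := congrFun h1 1
      simp at this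
  · push Not at hA
    obtain ⟨X, hX, hXK, hX0⟩ := hA
    have hXt := ((hP₀ X).1 hX).2
    by_cases hB1 : ∀ Y ∈ P₀, (∀ i j, Y i j ∈ K) → Y ∈ Submodule.span ℂ {X}
    · exfalso
      have h1 : ∀ Y ∈ P₀, Y ∈ Submodule.span ℂ {X} := by
        intro Y hY
        have h2 := hspan Y hY
        refine (Submodule.span_le.2 ?_) h2
        rintro Z ⟨hZ1, hZ2⟩
        exact hB1 Z hZ1 hZ2
      obtain ⟨χ, hχ⟩ := Submodule.mem_span_singleton.1 (h1 _ (hconj₀ X hX))
      exact hX0 (hT1 X hXK hXt χ hχ.symm)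
    · push Not at hB1
      obtain ⟨Y, hY, hYK, hYX⟩ := hB1
      have hYt := ((hP₀ Y).1 hY).2
      by_cases hB2 : ∀ Z ∈ P₀, (∀ i j, Z i j ∈ K) → Z ∈ Submodule.span ℂ {X, Y}
      · exfalso
        have h1 : ∀ Z ∈ P₀, Z ∈ Submodule.span ℂ {X, Y} := by
          intro Z hZ
          refine (Submodule.span_le.2 ?_) (hspan Z hZ)
          rintro Z ⟨hZ1, hZ2⟩
          exact hB2 Z hZ1 hZ2
        obtain ⟨a, b, hab⟩ := Submodule.mem_span_pair.1 (h1 _ (hconj₀ X hX))
        obtain ⟨a', b', hab'⟩ := Submodule.mem_span_pair.1 (h1 _ (hconj₀ Y hY))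
        have h2 : c * (X * Y - Y * X) * c⁻¹ = (a * b' - b * a') • (X * Y - Y * X) := by
          have h3 : c * (X * Y - Y * X) * c⁻¹ = (c * X * c⁻¹) * (c * Y * c⁻¹) - (c * Y * c⁻¹) * (c * X * c⁻¹) := by
            have h4 : ∀ A B : Matrix (Fin 2) (Fin 2) ℂ, (c * A * c⁻¹) * (c * B * c⁻¹) = c * (A * B) * c⁻¹ := by
              intro A B
              calc (c * A * c⁻¹) * (c * B * c⁻¹) = c * A * (c⁻¹ * c) * B * c⁻¹ := by simp only [Matrix.mul_assoc]
                _ = _ := by rw [hcc, Matrix.mul_one]; simp only [Matrix.mul_assoc]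
            rw [h4, h4, Matrix.mul_sub, Matrix.sub_mul]
          rw [h3, ← hab, ← hab']
          simp only [Matrix.add_mul, Matrix.mul_add, Matrix.smul_mul, Matrix.mul_smul, smul_smul]
          module
        have h5 := hT1 (X * Y - Y * X) (fun i j => by
          rw [Matrix.sub_apply, Matrix.mul_apply, Matrix.mul_apply]
          exact K.sub_mem (K.sum_mem fun k _ => K.mul_mem (hXK _ _) (hYK _ _))
            (K.sum_mem fun k _ => K.mul_mem (hYK _ _) (hXK _ _))) (by
          rw [Matrix.trace_sub, Matrix.trace_mul_comm, sub_self]) _ h2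
        obtain ⟨z, hz⟩ := comm_traceless hXt hYt hX0 h5
        exact hYX (Submodule.mem_span_singleton.2 ⟨z, hz.symm⟩)
      · push Not at hB2
        obtain ⟨Z, hZ, hZK, hZXY⟩ := hB2
        have hZt := ((hP₀ Z).1 hZ).2
        have h1 : LinearIndependent ℂ ![X] := by
          rw [linearIndependent_unique_iff]
          exact hX0
        have h2 : LinearIndependent ℂ ![Y, X] := by
          refine linearIndependent_finCons.2 ⟨h1, ?_⟩
          rw [Matrix.range_cons, Matrix.range_empty, Set.union_empty]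
          exact hYX
        have h3 : LinearIndependent ℂ ![Z, Y, X] := by
          refine linearIndependent_finCons.2 ⟨h2, ?_⟩
          rw [Matrix.range_cons, Matrix.range_cons, Matrix.range_empty, Set.union_empty, Set.union_comm]
          exact hZXY
        have h4 : LinearIndependent ℂ ![ξ, Z, Y, X] := by
          refine linearIndependent_finCons.2 ⟨h3, fun h5 => ?_⟩
          have h6 : Submodule.span ℂ (Set.range ![Z, Y, X]) ≤ LinearMap.ker (Matrix.traceLinearMap (Fin 2) ℂ ℂ) := by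
            rw [Submodule.span_le]
            rintro _ ⟨i, rfl⟩
            fin_cases i
            · exact hZt
            · exact hYt
            · exact hXt
          have h7 : ξ.trace = 0 := h6 h5
          rw [hξt] at h7
          exact one_ne_zero h7
        apply Submodule.eq_top_of_finrank_eq
        have h5 : Module.finrank ℂ (Matrix (Fin 2) (Fin 2) ℂ) = 4 := by
          rw [Module.finrank_matrix]
          simp
        rw [h5]
        apply le_antisymm
        · rw [← h5]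
          exact Submodule.finrank_le P
        · have h6 : Submodule.span ℂ (Set.range ![ξ, Z, Y, X]) ≤ P := by
            rw [Submodule.span_le]
            rintro _ ⟨i, rfl⟩
            fin_cases i
            · exact hξP
            · exact ((hP₀ _).1 hZ).1
            · exact ((hP₀ _).1 hY).1
            · exact ((hP₀ _).1 hX).1
          have h7 := Submodule.finrank_mono h6
          rw [finrank_span_eq_card h4] at h7
          simpa using h7

end Pool.Agent.V1138.OM
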