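import Pool.Agent.V1138.OM.Sub
import Pool.Agent.V1138.OM.Two

/-!
# Subgroups of the group which contain a generic point
-/

set_option autoImplicit false
set_option linter.unusedSectionVars false

open Matrix MvPolynomial

namespace Pool.Agent.V1138.OM

open Pool.Agent.TH127.PT Pool.Agent.TH119.MX Pool.Agent.TH119.DR Pool.Agent.Y123.ST

/-- the Lie algebra of a translate -/
theorem LA_translate {N : Type} [Fintype N] [DecidableEq N] {T : Set (Matrix N N ℂ)} {U V : Matrix N N ℂ}
    (hU : IsUnit U) (hV : IsUnit V) {w : Matrix N N ℂ} (hw : U * w * U⁻¹ ∈ LA T) :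
    w ∈ LA {x | U * x * V ∈ T} := by
  have hU' := (Matrix.isUnit_iff_isUnit_det U).1 hU
  have hV' := (Matrix.isUnit_iff_isUnit_det V).1 hV
  intro P hP x hx
  have h1 : Van T (cp ((ml U⁻¹).comp (mr V⁻¹)) P) := by
    intro z hz
    rw [eval_cp, LinearMap.comp_apply, mr_fl, ml_fl]
    refine hP _ ?_
    show U * (U⁻¹ * (z * V⁻¹)) * V ∈ T
    rw [← Matrix.mul_assoc U, Matrix.mul_nonsing_inv U hU', Matrix.one_mul, Matrix.mul_assoc,
      Matrix.nonsing_inv_mul V hV', Matrix.mul_one]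
    exact hz
  have h2 := hw _ h1 _ hx
  rw [dd_cp, LinearMap.comp_apply, LinearMap.comp_apply, mr_fl, ml_fl, mr_fl, ml_fl, um_fl] at h2
  have h3 : U⁻¹ * (U * x * V * V⁻¹) = x := by
    rw [Matrix.mul_assoc (U * x), Matrix.mul_nonsing_inv V hV', Matrix.mul_one, ← Matrix.mul_assoc,
      Matrix.nonsing_inv_mul U hU', Matrix.one_mul]
  have h4 : U⁻¹ * (U * w * U⁻¹ * (U * x * V) * V⁻¹) = w * x := by
    calc U⁻¹ * (U * w * U⁻¹ * (U * x * V) * V⁻¹) = (U⁻¹ * U) * w * (U⁻¹ * U) * x * (V * V⁻¹) := by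
          simp only [Matrix.mul_assoc]
      _ = _ := by
          rw [Matrix.nonsing_inv_mul U hU', Matrix.mul_nonsing_inv V hV', Matrix.one_mul, Matrix.mul_one,
            Matrix.mul_one]
  rw [h3, h4] at h2
  rw [um_fl]
  exact h2

variable {m l : ℕ} {K : Subfield ℂ}

theorem by_map (D : ℂ → ℂ) (x : Matrix (Idx m l) (Idx m l) ℂ) : by' (x.map D) = (by' x).map D := rfl
theorem bV_map (D : ℂ → ℂ) (x : Matrix (Idx m l) (Idx m l) ℂ) : bV (x.map D) = (bV x).map D := rfl
theorem bW_map (D : ℂ → ℂ) (x : Matrix (Idx m l) (Idx m l) ℂ) : bW (x.map D) = (bW x).map D := rfl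
theorem bt_map (D : ℂ → ℂ) (x : Matrix (Idx m l) (Idx m l) ℂ) : bt (x.map D) = (bt x).map D := rfl

/-- a subgroup over `K`, contained in the big group -/
structure Sbg (K : Subfield ℂ) (H : Set (Matrix (Idx m l) (Idx m l) ℂ)) : Prop where
  sub : IsSubtorsor K H
  le : H ⊆ GG m l
  one : (1 : Matrix (Idx m l) (Idx m l) ℂ) ∈ H

/-- the logarithmic derivative in terms of the blocks -/
theorem logder_blocks {H : Set (Matrix (Idx m l) (Idx m l) ℂ)} (hH : Sbg K H) {C : Matrix (Idx m l) (Idx m l) ℂ}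
    (hC : C ∈ H) (D : Derivation K ℂ ℂ) : ∃ w ∈ LA H, w = lie (by' w) (bV w) (bW w) (bt w) ∧ (bW w)ᵀ = bW w ∧
      (by' C).map D = by' w * by' C ∧ (bV C).map D = by' w * bV C + bV w ∧
      (bt C).map D = (by' w).trace • bt C + bt w := by
  have h1 := LA_logder hH.sub D hC
  obtain ⟨h2, h3⟩ := shape hH.le hH.one h1
  refine ⟨_, h1, h2, h3, ?_⟩
  have hu := (Matrix.isUnit_iff_isUnit_det C).1 (isUnit_of (hH.le hC))
  have h4 : C.map D * C⁻¹ * C = C.map D := by
    rw [Matrix.mul_assoc, Matrix.nonsing_inv_mul C hu, Matrix.mul_one]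
  set w := C.map D * C⁻¹ with hw
  have h5 := (mem_GG_iff.1 (hH.le hC)).2.2
  obtain ⟨e1, e2, e3⟩ := lie_mk (by' w) (bV w) (bW w) (bt w) (by' C) (bV C) (bW C) (bt C)
  rw [← h5, ← h2, h4] at e1 e2 e3
  exact ⟨e1, e2, e3⟩

/-- **Step 1**: the projection to the two by two matrices is surjective -/
theorem step1 [IsAlgClosed K] (hKa : ∀ z : ℂ, (∀ D : Derivation K ℂ ℂ, D z = 0) → z ∈ K)
    {H : Set (Matrix (Idx m l) (Idx m l) ℂ)} (hH : Sbg K H) {C : Matrix (Idx m l) (Idx m l) ℂ} (hC : C ∈ H)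
    (hR : NoR K (by' C)) {D₀ : Derivation K ℂ ℂ} (hD₀ : D₀ (by' C).det ≠ 0) (X : Matrix (Fin 2) (Fin 2) ℂ) :
    ∃ w ∈ LA H, by' w = X := by
  let bl : Matrix (Idx m l) (Idx m l) ℂ →ₗ[ℂ] Matrix (Fin 2) (Fin 2) ℂ :=
    { toFun := by'
      map_add' := fun _ _ => rfl
      map_smul' := fun _ _ => rfl }
  have hdet : (by' C).det ≠ 0 := (mem_GG_iff.1 (hH.le hC)).1
  have h1 := full_two hKa hR hdet hD₀ ((LA H).map bl) ?_ ?_ ?_
  · have h2 : X ∈ (LA H).map bl := by rw [h1]; trivial
    obtain ⟨w, hw, rfl⟩ := h2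
    exact ⟨w, hw, rfl⟩
  · rintro f _ ⟨w, hw, rfl⟩
    exact ⟨w.map f, LA_map hH.sub f hw, rfl⟩
  · rintro _ ⟨w, hw, rfl⟩
    refine ⟨C * w * C⁻¹, LA_conj hH.sub hH.one hC hw, ?_⟩
    have h3 := (mem_GG_iff.1 (hH.le hC)).2.2
    have h4 := LA_conj hH.sub hH.one hC hw
    obtain ⟨h5, -⟩ := shape hH.le hH.one h4
    obtain ⟨h6, -⟩ := shape hH.le hH.one hw
    have hu := (Matrix.isUnit_iff_isUnit_det C).1 (isUnit_of (hH.le hC))
    have h7 : C * w * C⁻¹ * C = C * w := by
      rw [Matrix.mul_assoc, Matrix.nonsing_inv_mul C hu, Matrix.mul_one]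
    set w' := C * w * C⁻¹ with hw'
    have e1 := (lie_mk (by' w') (bV w') (bW w') (bt w') (by' C) (bV C) (bW C) (bt C)).1
    have e2 := (mk_lie (by' w) (bV w) (bW w) (bt w) (by' C) (bV C) (bW C) (bt C)).1
    rw [← h3, ← h5, h7] at e1
    rw [← h3, ← h6] at e2
    rw [e2] at e1
    show by' w' = by' C * by' w * (by' C)⁻¹
    rw [e1, Matrix.mul_assoc, Matrix.mul_nonsing_inv _ (isUnit_iff_ne_zero.2 hdet), Matrix.mul_one]
  · intro D
    obtain ⟨w, hw, -, -, h3, -, -⟩ := logder_blocks hH hC D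
    refine ⟨w, hw, ?_⟩
    show by' w = (by' C).map D * (by' C)⁻¹
    rw [h3, Matrix.mul_assoc, Matrix.mul_nonsing_inv _ (isUnit_iff_ne_zero.2 hdet), Matrix.mul_one]

theorem lin_one : ∃ f : ℂ →ₗ[K] ℂ, (∀ x, f x ∈ K) ∧ f 1 = 1 := by
  obtain ⟨f, hf, h0⟩ := exists_lin (K := K) (one_ne_zero (α := ℂ))
  refine ⟨(⟨(f 1)⁻¹, K.inv_mem (hf 1)⟩ : K) • f, fun x => K.mul_mem (K.inv_mem (hf 1)) (hf x), ?_⟩
  exact inv_mul_cancel₀ h0

/-- a functional over `K` which vanishes on a proper subspace -/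
theorem exists_func {α : Type*} [Fintype α] [DecidableEq α] (W : Submodule ℂ (α → ℂ)) (hW : ∀ (f : ℂ →ₗ[K] ℂ), ∀ w ∈ W,
    (fun a => f (w a)) ∈ W) (h : W ≠ ⊤) : ∃ u : α → ℂ, (∀ a, u a ∈ K) ∧ u ≠ 0 ∧ ∀ w ∈ W, ∑ a, w a * u a = 0 := by
  obtain ⟨x, hx⟩ : ∃ x, x ∉ W := by
    by_contra hcon
    push Not at hcon
    exact h (eq_top_iff.2 fun x _ => hcon x)
  obtain ⟨φ, hφ1, hφ2⟩ := Submodule.exists_le_ker_of_notMem hx
  have hφ3 : ∀ a : α → ℂ, φ a = ∑ b, a b * φ (Pi.single b 1) := by
    intro a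
    conv_lhs => rw [LinearMap.pi_apply_eq_sum_univ φ a]
    refine Finset.sum_congr rfl fun b _ => ?_
    have h : (fun j => if b = j then (1 : ℂ) else 0) = Pi.single b 1 := by
      funext j
      simp [Pi.single_apply, eq_comm]
    rw [h, smul_eq_mul]
  obtain ⟨a, ha⟩ : ∃ a, φ (Pi.single a 1) ≠ 0 := by
    by_contra hcon
    push Not at hcon
    apply hφ1
    rw [hφ3]
    exact Finset.sum_eq_zero fun b _ => by rw [hcon, mul_zero]
  obtain ⟨f, hf, hf0⟩ := exists_lin (K := K) ha
  refine ⟨fun b => f (φ (Pi.single b 1)), fun b => hf _, fun h0 => hf0 (congrFun h0 a), ?_⟩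
  intro w hw
  have h1 : w ∈ Submodule.span ℂ {w | w ∈ W ∧ ∀ a, w a ∈ K} := defOver_of_map (K := K) hW hw
  clear hw
  induction h1 using Submodule.span_induction with
  | mem w hw2 =>
    obtain ⟨hw3, hw4⟩ := hw2
    have h2 : φ w = 0 := hφ2 hw3
    rw [hφ3] at h2
    have h3 := congrArg f h2
    rw [map_zero, map_sum] at h3
    rw [← h3]
    exact Finset.sum_congr rfl fun b _ => (lin_mul f (hw4 b) _).symm
  | zero => simp
  | add x y _ _ hx hy =>
    simp only [Pi.add_apply, add_mul, Finset.sum_add_distrib] at hx hy ⊢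
    rw [hx, hy, add_zero]
  | smul c x _ hx =>
    simp only [Pi.smul_apply, smul_eq_mul, mul_assoc c, ← Finset.mul_sum]
    rw [hx, mul_zero]

theorem lie_add (X X' : Matrix (Fin 2) (Fin 2) ℂ) (A A' : Matrix (Fin 2) (Fin m) ℂ) (B B' : Matrix (Fin m) (Fin m) ℂ)
    (s s' : Matrix Unit (Fin l) ℂ) : lie X A B s + lie X' A' B' s' = lie (X + X') (A + A') (B + B') (s + s') := by
  unfold lie
  rw [fromBlocks_add, fromBlocks_add, fromBlocks_add, fromBlocks_add, add_cols, trace_add, add_smul, transpose_add,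
    Matrix.add_mul]
  simp [add_smul]

theorem lie_smul (a : ℂ) (X : Matrix (Fin 2) (Fin 2) ℂ) (A : Matrix (Fin 2) (Fin m) ℂ) (B : Matrix (Fin m) (Fin m) ℂ)
    (s : Matrix Unit (Fin l) ℂ) : a • lie X A B s = lie (a • X) (a • A) (a • B) (a • s) := by
  unfold lie
  rw [fromBlocks_smul, fromBlocks_smul, fromBlocks_smul, fromBlocks_smul, smul_cols, trace_smul, transpose_smul,
    Matrix.smul_mul]
  simp [smul_smul]

/-- the homogeneous parts -/
theorem graded {H : Set (Matrix (Idx m l) (Idx m l) ℂ)} (hH : Sbg K H) (h1 : lie 1 0 0 0 ∈ LA H)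
    {w : Matrix (Idx m l) (Idx m l) ℂ} (hw : w ∈ LA H) :
    lie (by' w) 0 0 0 ∈ LA H ∧ lie 0 (bV w) 0 0 ∈ LA H ∧ lie 0 0 (bW w) (bt w) ∈ LA H := by
  have h2 := (shape hH.le hH.one hw).1
  have ht : (1 : Matrix (Fin 2) (Fin 2) ℂ).trace = 2 := by simp
  have h3 : lie 0 (bV w) ((2 : ℂ) • bW w) ((2 : ℂ) • bt w) ∈ LA H := by
    have := LA_bracket h1 hw
    rw [h2, lie_bracket] at this
    simpa [ht] using this
  have h4 : lie 0 (bV w) ((4 : ℂ) • bW w) ((4 : ℂ) • bt w) ∈ LA H := by
    have := LA_bracket h1 h3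
    rw [lie_bracket] at this
    simpa [ht, smul_smul, show (2 : ℂ) * 2 = 4 by norm_num] using this
  have h5 : lie 0 0 (bW w) (bt w) ∈ LA H := by
    have := (LA H).smul_mem (1 / 2 : ℂ) ((LA H).sub_mem h4 h3)
    rw [sub_eq_add_neg, ← neg_one_smul ℂ (lie 0 _ _ _), lie_smul, lie_add, lie_smul] at this
    convert this using 1
    congr 1
    · simp
    · simp
    · module
    · module
  have h6 : lie 0 (bV w) 0 0 ∈ LA H := by
    have := (LA H).sub_mem h3 ((LA H).smul_mem (2 : ℂ) h5)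
    rw [sub_eq_add_neg, ← neg_one_smul ℂ, lie_smul, lie_smul, lie_add] at this
    convert this using 1
    congr 1
    · simp
    · simp
    · module
    · module
  refine ⟨?_, h6, h5⟩
  have := (LA H).sub_mem ((LA H).sub_mem hw h6) h5
  rw [h2, sub_eq_add_neg, sub_eq_add_neg, ← neg_one_smul ℂ (lie 0 (bV _) _ _), ← neg_one_smul ℂ (lie 0 0 _ _),
    lie_smul, lie_smul, lie_add, lie_add] at this
  convert this using 1
  congr 1
  · simp
  · simp
  · simp
  · simp

/-- the matrix with one row -/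
def row (a : Fin 2) (r : Fin m → ℂ) : Matrix (Fin 2) (Fin m) ℂ := vecMulVec (Pi.single a 1) r

theorem row_apply (a b : Fin 2) (r : Fin m → ℂ) (i : Fin m) : row a r b i = if b = a then r i else 0 := by
  unfold row
  rw [vecMulVec_apply, Pi.single_apply]
  split_ifs <;> simp

theorem row_form (a b : Fin 2) (r s : Fin m → ℂ) : (row a r)ᵀ * JJ * row b s = JJ a b • vecMulVec r s := by
  ext i j
  rw [Matrix.mul_apply, Fin.sum_univ_two, Matrix.mul_apply, Matrix.mul_apply, Fin.sum_univ_two, Fin.sum_univ_two]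
  simp only [transpose_apply, row_apply, Matrix.smul_apply, vecMulVec_apply, smul_eq_mul]
  fin_cases a <;> fin_cases b <;> simp [JJ]

/-- **Step 2**: the vectors -/
theorem step2 (hKa : ∀ z : ℂ, (∀ D : Derivation K ℂ ℂ, D z = 0) → z ∈ K)
    {H : Set (Matrix (Idx m l) (Idx m l) ℂ)} (hH : Sbg K H) {C : Matrix (Idx m l) (Idx m l) ℂ} (hC : C ∈ H)
    (h1 : lie 1 0 0 0 ∈ LA H) (hX : ∀ X : Matrix (Fin 2) (Fin 2) ℂ, ∃ w ∈ LA H, by' w = X)
    (hV : ∀ (u : Fin m → ℂ) (z : Fin 2 → ℂ), (∀ i, u i ∈ K) → (∀ i, z i ∈ K) → bV C *ᵥ u = by' C *ᵥ z → u = 0)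
    (A : Matrix (Fin 2) (Fin m) ℂ) : lie 0 A 0 0 ∈ LA H := by
  classical
  have hXX : ∀ X : Matrix (Fin 2) (Fin 2) ℂ, lie X 0 0 0 ∈ LA H := by
    intro X
    obtain ⟨w, hw, rfl⟩ := hX X
    exact (graded hH h1 hw).1
  have hmul : ∀ (X : Matrix (Fin 2) (Fin 2) ℂ) (A : Matrix (Fin 2) (Fin m) ℂ), lie 0 A 0 0 ∈ LA H →
      lie 0 (X * A) 0 0 ∈ LA H := by
    intro X A hA
    have := LA_bracket (hXX X) hA
    rw [lie_bracket] at this
    simpa using this
  let M : Submodule ℂ (Fin m → ℂ) :=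
    { carrier := {r | lie 0 (row 0 r) 0 0 ∈ LA H}
      zero_mem' := by
        show lie 0 (row 0 0) 0 0 ∈ LA H
        have : row (m := m) 0 0 = 0 := by ext a i; simp [row_apply]
        rw [this]
        have h2 : (lie 0 0 0 0 : Matrix (Idx m l) (Idx m l) ℂ) = 0 := by
          have := lie_smul (m := m) (l := l) 0 0 0 0 0
          simpa using this.symm
        rw [h2]
        exact (LA H).zero_mem
      add_mem' := by
        intro r r' hr hr'
        have := (LA H).add_mem hr hr'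
        rw [lie_add] at this
        show lie 0 (row 0 (r + r')) 0 0 ∈ LA H
        convert this using 1
        congr 1
        · simp
        · ext a i
          simp only [row_apply, Matrix.add_apply, Pi.add_apply]
          split_ifs <;> simp
        · simp
        · simp
      smul_mem' := by
        intro z r hr
        have := (LA H).smul_mem z hr
        rw [lie_smul] at this
        show lie 0 (row 0 (z • r)) 0 0 ∈ LA H
        convert this using 1
        congr 1
        · simp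
        · ext a i
          simp only [row_apply, Matrix.smul_apply, Pi.smul_apply]
          split_ifs <;> simp
        · simp
        · simp }
  have hM : ∀ r, r ∈ M ↔ lie 0 (row 0 r) 0 0 ∈ LA H := fun r => Iff.rfl
  have hMf : ∀ (f : ℂ →ₗ[K] ℂ), ∀ r ∈ M, (fun a => f (r a)) ∈ M := by
    intro f r hr
    have h2 := LA_map hH.sub f hr
    have h3 := (graded hH h1 h2).2.1
    rw [bV_map, bV_lie] at h3
    rw [hM]
    convert h3 using 2
    ext a i
    simp only [row_apply, Matrix.map_apply]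
    split_ifs <;> simp
  have htop : M = ⊤ := by
    by_contra hne
    obtain ⟨u, huK, hu0, hu⟩ := exists_func (K := K) M hMf hne
    apply hu0
    have hA : ∀ w ∈ LA H, bV w *ᵥ u = 0 := by
      intro w hw
      funext a
      have h2 := hmul (Matrix.single (0 : Fin 2) a (1 : ℂ)) _ (graded hH h1 hw).2.1
      have h3 : Matrix.single (0 : Fin 2) a (1 : ℂ) * bV w = row 0 (bV w a) := by
        ext b i
        rw [row_apply]
        by_cases hb : b = 0
        · rw [hb, if_pos rfl, Matrix.single_mul_apply_same, one_mul]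
        · rw [if_neg hb, Matrix.single_mul_apply_of_ne _ _ _ _ _ hb]
      rw [h3] at h2
      exact hu _ h2
    -- the point
    have hdet : (by' C).det ≠ 0 := (mem_GG_iff.1 (hH.le hC)).1
    have hdu : IsUnit (by' C).det := isUnit_iff_ne_zero.2 hdet
    have hz : ∀ i, ((by' C)⁻¹ *ᵥ (bV C *ᵥ u)) i ∈ K := by
      set z : Fin 2 → ℂ := (by' C)⁻¹ *ᵥ (bV C *ᵥ u) with hzdef
      have hyz : by' C *ᵥ z = bV C *ᵥ u := by
        rw [hzdef, Matrix.mulVec_mulVec, Matrix.mul_nonsing_inv _ hdu, Matrix.one_mulVec]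
      have hD : ∀ D : Derivation K ℂ ℂ, ∀ i, D (z i) = 0 := by
        intro D
        obtain ⟨w, hw, -, -, e1, e2, -⟩ := logder_blocks hH hC D
        have hDv : ∀ {n : Type} [Fintype n] (Y : Matrix (Fin 2) n ℂ) (v : n → ℂ),
            (fun i => D ((Y *ᵥ v) i)) = (Y.map D) *ᵥ v + Y *ᵥ (fun i => D (v i)) := by
          intro n _ Y v
          funext i
          simp only [Matrix.mulVec, dotProduct, map_sum, D.leibniz, smul_eq_mul, Pi.add_apply, Matrix.map_apply,
            Finset.sum_add_distrib]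
          rw [add_comm]
          congr 1
          exact Finset.sum_congr rfl fun k _ => mul_comm _ _
        have h4 := hDv (bV C) u
        have h5 := hDv (by' C) z
        rw [hyz] at h5
        have h6 : (fun i => D (u i)) = 0 := funext fun i => der_mem D (huK i)
        rw [h5, e1, e2, h6, Matrix.mulVec_zero, add_zero, Matrix.add_mulVec, hA w hw, add_zero,
          ← Matrix.mulVec_mulVec, ← Matrix.mulVec_mulVec, hyz] at h4
        have h7 : by' C *ᵥ (fun i => D (z i)) = 0 := by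
          have := h4
          rwa [add_eq_left] at this
        have h8 : (fun i => D (z i)) = 0 := by
          have h9 := congrArg (fun v => (by' C)⁻¹ *ᵥ v) h7
          simp only [Matrix.mulVec_mulVec, Matrix.nonsing_inv_mul _ hdu, Matrix.one_mulVec, Matrix.mulVec_zero] at h9
          exact h9
        intro i
        exact congrFun h8 i
      intro i
      exact hKa _ fun D => hD D i
    refine hV u _ huK hz ?_
    rw [Matrix.mulVec_mulVec, Matrix.mul_nonsing_inv _ hdu, Matrix.one_mulVec]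
  -- all matrices
  have hrow : ∀ (a : Fin 2) (r : Fin m → ℂ), lie 0 (row a r) 0 0 ∈ LA H := by
    intro a r
    have h2 : r ∈ M := by rw [htop]; trivial
    have h3 := hmul (Matrix.single a (0 : Fin 2) (1 : ℂ)) _ h2
    have h4 : Matrix.single a (0 : Fin 2) (1 : ℂ) * row 0 r = row a r := by
      ext b i
      by_cases hb : b = a
      · rw [hb, Matrix.single_mul_apply_same, one_mul, row_apply, row_apply, if_pos rfl, if_pos rfl]
      · rw [Matrix.single_mul_apply_of_ne _ _ _ _ _ hb, row_apply, if_neg hb]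
    rwa [h4] at h3
  have h5 := (LA H).add_mem (hrow 0 (A 0)) (hrow 1 (A 1))
  rw [lie_add] at h5
  convert h5 using 1
  congr 1
  · simp
  · ext a i
    fin_cases a <;> simp [row_apply]
  · simp
  · simp

/-- **Step 3**: the symmetric matrices -/
theorem step3 {H : Set (Matrix (Idx m l) (Idx m l) ℂ)} (hA : ∀ A : Matrix (Fin 2) (Fin m) ℂ, lie 0 A 0 0 ∈ LA H)
    {B : Matrix (Fin m) (Fin m) ℂ} (hB : Bᵀ = B) : lie (l := l) 0 0 B 0 ∈ LA H := by
  classical
  have h1 : ∀ r s : Fin m → ℂ, lie (l := l) 0 0 (vecMulVec r s + vecMulVec s r) 0 ∈ LA H := by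
    intro r s
    have := LA_bracket (hA (row 0 r)) (hA (row 1 s))
    rw [lie_bracket, row_form, row_form] at this
    convert this using 1
    congr 1
    · simp
    · simp
    · simp [JJ]
    · simp
  have h2 : B = ∑ i, ∑ j, (B i j / 2) • (vecMulVec (Pi.single i 1) (Pi.single j 1) +
      vecMulVec (Pi.single j 1) (Pi.single i 1)) := by
    ext a b
    simp only [Matrix.sum_apply, Matrix.smul_apply, Matrix.add_apply, vecMulVec_apply, smul_eq_mul, mul_add,
      Finset.sum_add_distrib, Pi.single_apply]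
    have h3 : B b a = B a b := congrFun (congrFun hB a) b
    simp only [mul_ite, mul_one, mul_zero, Finset.sum_ite_eq, Finset.mem_univ, if_true]
    have h4 : (∑ x, ∑ x_1, if b = x then if a = x_1 then B x x_1 / 2 else 0 else 0) = B b a / 2 := by
      rw [Finset.sum_eq_single b]
      · simp
      · intro x _ hx
        simp [Ne.symm hx]
      · simp
    rw [h4, h3]
    ring
  have h3 : ∀ (s : Finset (Fin m)) (F : Fin m → Matrix (Fin m) (Fin m) ℂ), (∀ i, lie (l := l) 0 0 (F i) 0 ∈ LA H) →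
      lie (l := l) 0 0 (∑ i ∈ s, F i) 0 ∈ LA H := by
    intro s F hF
    induction s using Finset.induction_on with
    | empty =>
      have h2 : (lie 0 0 0 0 : Matrix (Idx m l) (Idx m l) ℂ) = 0 := by
        have := lie_smul (m := m) (l := l) 0 0 0 0 0
        simpa using this.symm
      rw [Finset.sum_empty, h2]
      exact (LA H).zero_mem
    | insert i s hi ih =>
      rw [Finset.sum_insert hi]
      have := (LA H).add_mem (hF i) ih
      rw [lie_add] at this
      simpa using this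
  rw [h2]
  refine h3 _ _ fun i => h3 _ _ fun j => ?_
  have := (LA H).smul_mem (B i j / 2) (h1 (Pi.single i 1) (Pi.single j 1))
  rw [lie_smul] at this
  simpa using this

/-- **Step 4**: the torus part -/
theorem step4 (hKa : ∀ z : ℂ, (∀ D : Derivation K ℂ ℂ, D z = 0) → z ∈ K)
    {H : Set (Matrix (Idx m l) (Idx m l) ℂ)} (hH : Sbg K H) {C : Matrix (Idx m l) (Idx m l) ℂ} (hC : C ∈ H)
    (h1 : lie 1 0 0 0 ∈ LA H) (hA : ∀ A : Matrix (Fin 2) (Fin m) ℂ, lie 0 A 0 0 ∈ LA H)
    (ht : ∀ (u : Fin l → ℂ) (z : ℂ), (∀ i, u i ∈ K) → z ∈ K → ∑ j, bt C () j * u j = (by' C).det * z → u = 0)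
    (s : Matrix Unit (Fin l) ℂ) : lie 0 0 0 s ∈ LA H := by
  classical
  let M : Submodule ℂ (Fin l → ℂ) :=
    { carrier := {r | lie 0 0 0 (Matrix.of fun _ => r) ∈ LA H}
      zero_mem' := by
        have h2 : (lie 0 0 0 0 : Matrix (Idx m l) (Idx m l) ℂ) = 0 := by
          have := lie_smul (m := m) (l := l) 0 0 0 0 0
          simpa using this.symm
        show lie 0 0 0 0 ∈ LA H
        rw [h2]
        exact (LA H).zero_mem
      add_mem' := by
        intro r r' hr hr'
        have := (LA H).add_mem hr hr'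
        rw [lie_add] at this
        simp only [add_zero] at this
        exact this
      smul_mem' := by
        intro z r hr
        have := (LA H).smul_mem z hr
        rw [lie_smul] at this
        simp only [smul_zero] at this
        exact this }
  have hMf : ∀ (f : ℂ →ₗ[K] ℂ), ∀ r ∈ M, (fun a => f (r a)) ∈ M := by
    intro f r hr
    have h2 := LA_map hH.sub f hr
    have h3 := (graded hH h1 h2).2.2
    rw [bt_map, bt_lie, bW_map, bW_lie] at h3
    have h4 : (0 : Matrix (Fin m) (Fin m) ℂ).map f = 0 := by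
      ext i j
      simp
    rw [h4] at h3
    exact h3
  have htop : M = ⊤ := by
    by_contra hne
    obtain ⟨u, huK, hu0, hu⟩ := exists_func (K := K) M hMf hne
    apply hu0
    have hA' : ∀ w ∈ LA H, ∑ j, bt w () j * u j = 0 := by
      intro w hw
      have h2 := (graded hH h1 hw).2.2
      have h3 := step3 hA (shape hH.le hH.one hw).2
      have h4 := (LA H).sub_mem h2 h3
      rw [sub_eq_add_neg, ← neg_one_smul ℂ, lie_smul, lie_add] at h4
      refine hu (bt w ()) ?_
      show lie 0 0 0 (Matrix.of fun _ => bt w ()) ∈ LA H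
      convert h4 using 1
      congr 1
      · simp
      · simp
      · simp
      · ext i j
        simp
    have hdet : (by' C).det ≠ 0 := (mem_GG_iff.1 (hH.le hC)).1
    have hz : (∑ j, bt C () j * u j) / (by' C).det ∈ K := by
      refine hKa _ fun D => ?_
      obtain ⟨w, hw, -, -, e1, -, e3⟩ := logder_blocks hH hC D
      have e4 : D (by' C).det = (by' w).trace * (by' C).det := by
        have h5 := der_det D hdet
        rw [e1, Matrix.mul_assoc, Matrix.mul_nonsing_inv _ (isUnit_iff_ne_zero.2 hdet), Matrix.mul_one] at h5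
        exact h5.symm
      have e5 : D (∑ j, bt C () j * u j) = (by' w).trace * ∑ j, bt C () j * u j := by
        rw [map_sum]
        have h6 : ∀ j, D (bt C () j * u j) = (by' w).trace * (bt C () j * u j) + bt w () j * u j := by
          intro j
          rw [D.leibniz, der_mem D (huK j), smul_zero, zero_add, smul_eq_mul]
          have h7 : D (bt C () j) = (by' w).trace * bt C () j + bt w () j := congrFun (congrFun e3 ()) j
          rw [h7]
          ring
        rw [Finset.sum_congr rfl fun j _ => h6 j, Finset.sum_add_distrib, hA' w hw, add_zero, Finset.mul_sum]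
      set τ := ∑ j, bt C () j * u j
      have h8 : (by' C).det * (τ / (by' C).det) = τ := by field_simp
      have h9 := congrArg D h8
      rw [D.leibniz, e4, e5, smul_eq_mul, smul_eq_mul] at h9
      have h10 : (by' C).det * D (τ / (by' C).det) = 0 := by
        have h11 : τ / (by' C).det * ((by' w).trace * (by' C).det) = (by' w).trace * τ := by field_simp
        rw [h11] at h9
        linear_combination h9
      exact (mul_eq_zero.1 h10).resolve_left hdet
    refine ht u _ huK hz ?_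
    field_simp
  have h2 : s () ∈ M := by rw [htop]; trivial
  exact h2

/-! ### the group is generated -/

theorem exp_mem {H : Set (Matrix (Idx m l) (Idx m l) ℂ)} (hH : Sbg K H) {E : Matrix (Idx m l) (Idx m l) ℂ}
    (hE : E ∈ LA H) (h2 : E * E = 0) {x : Matrix (Idx m l) (Idx m l) ℂ} (hx : x ∈ H) : (1 + E) * x ∈ H := by
  have := exp_nil hH.sub h2 hE hx 1
  rwa [one_smul] at this

theorem one_add_lie {X : Matrix (Fin 2) (Fin 2) ℂ} {A : Matrix (Fin 2) (Fin m) ℂ} {B : Matrix (Fin m) (Fin m) ℂ}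
    {s : Matrix Unit (Fin l) ℂ} (h : X.trace = 0) (h2 : (1 + X).det = 1) (h3 : Aᵀ * JJ * X = 0) :
    1 + lie X A B s = mk (1 + X) A B s := by
  rw [← mk_one]
  unfold mk lie
  rw [fromBlocks_add, fromBlocks_add, fromBlocks_add, fromBlocks_add, add_cols, h, h2, Matrix.mul_add, h3]
  simp

/-- left translations by the unipotent elements -/
theorem uni_mem {H : Set (Matrix (Idx m l) (Idx m l) ℂ)} (hH : Sbg K H)
    (hA : ∀ A : Matrix (Fin 2) (Fin m) ℂ, lie 0 A 0 0 ∈ LA H) (hs : ∀ s, lie 0 0 0 s ∈ LA H)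
    {V : Matrix (Fin 2) (Fin m) ℂ} {W : Matrix (Fin m) (Fin m) ℂ} {t : Matrix Unit (Fin l) ℂ}
    (hW : W - Wᵀ = Vᵀ * JJ * V) {x : Matrix (Idx m l) (Idx m l) ℂ} (hx : x ∈ H) : mk 1 V W t * x ∈ H := by
  have h1 : ∀ (a : Fin 2) (r : Fin m → ℂ) {x : Matrix (Idx m l) (Idx m l) ℂ}, x ∈ H → mk 1 (row a r) 0 0 * x ∈ H := by
    intro a r x hx
    have h2 := exp_mem hH (hA (row a r)) (by
      rw [lie_mul, row_form]
      have : JJ a a = 0 := by fin_cases a <;> simp [JJ]
      rw [this]
      simp) hx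
    rwa [one_add_lie (by simp) (by simp) (by simp), add_zero] at h2
  have h2 : ∀ {B : Matrix (Fin m) (Fin m) ℂ} (s : Matrix Unit (Fin l) ℂ), Bᵀ = B →
      ∀ {x : Matrix (Idx m l) (Idx m l) ℂ}, x ∈ H → mk 1 0 B s * x ∈ H := by
    intro B s hB x hx
    have h4 := (LA H).add_mem (step3 hA hB) (hs s)
    rw [lie_add] at h4
    simp only [add_zero, zero_add] at h4
    have h3 := exp_mem hH h4 (by
      rw [lie_mul]
      simp) hx
    rwa [one_add_lie (by simp) (by simp) (by simp), add_zero] at h3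
  set W' : Matrix (Fin m) (Fin m) ℂ := vecMulVec (V 0) (V 1) with hW'
  have hV : row 0 (V 0) + row 1 (V 1) = V := by
    ext a i
    fin_cases a <;> simp [row_apply]
  have h3 : mk 1 V W t = mk 1 0 (W - W') t * (mk 1 (row 0 (V 0)) 0 0 * mk 1 (row 1 (V 1)) 0 0) := by
    rw [mk_mul, mk_mul, Matrix.mul_one, Matrix.mul_one, Matrix.mul_one, row_form, Matrix.one_mul,
      Matrix.one_mul, add_comm (row 1 (V 1)), hV]
    have : JJ 0 1 = 1 := by simp [JJ]
    rw [this]
    congr 1
    · simp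
    · simp
      rw [← hW']
      abel
    · simp
  rw [h3, Matrix.mul_assoc, Matrix.mul_assoc]
  refine h2 t ?_ (h1 0 _ (h1 1 _ hx))
  have h4 : Vᵀ * JJ * V = W' - W'ᵀ := by
    ext i j
    simp [JJ, Matrix.mul_apply, Fin.sum_univ_two, hW', vecMulVec_apply]
    ring
  rw [h4] at hW
  rw [transpose_sub]
  have h5 : W - W' - (Wᵀ - W'ᵀ) = 0 := by
    rw [← sub_eq_zero] at hW
    rw [← hW]
    abel
  exact (sub_eq_zero.1 h5).symm

/-- left translations by the elementary matrices -/
theorem nil_mem {H : Set (Matrix (Idx m l) (Idx m l) ℂ)} (hH : Sbg K H)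
    (hX : ∀ X : Matrix (Fin 2) (Fin 2) ℂ, lie X 0 0 0 ∈ LA H) {X : Matrix (Fin 2) (Fin 2) ℂ} (h1 : X * X = 0)
    (h2 : X.trace = 0) (h3 : (1 + X).det = 1)
    {x : Matrix (Idx m l) (Idx m l) ℂ} (hx : x ∈ H) : mk (1 + X) 0 0 0 * x ∈ H := by
  have h4 := exp_mem hH (hX X) (by
    rw [lie_mul, h1, h2]
    simp) hx
  rwa [one_add_lie h2 h3 (by simp)] at h4

end Pool.Agent.V1138.OM
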