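import Pool.Agent.V1138.OM.Mat

/-!
# The group is a subtorsor over every field; the Lie algebra
-/

set_option autoImplicit false
set_option linter.unusedSectionVars false

open Matrix MvPolynomial

namespace Pool.Agent.V1138.OM

open Pool.Agent.TH127.PT Pool.Agent.TH119.MX Pool.Agent.TH119.DR Pool.Agent.Y123.ST

variable {m l : ℕ} (K : Subfield ℂ)

/-- polynomial functions over `K` with given derivative at `1` -/
def PD {N : Type} [Fintype N] [DecidableEq N] (F : Matrix N N ℂ → ℂ) (F' : Matrix N N ℂ → ℂ) : Prop :=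
  ∃ P : MvPolynomial (N × N) ℂ, P ∈ (MvPolynomial.map (σ := N × N) (algebraMap K ℂ)).range ∧
    (∀ x, F x = eval (fl x) P) ∧ ∀ v, F' v = dd P (fl 1) (fl v)

section PD

variable {K} {N : Type} [Fintype N] [DecidableEq N] {F G F' G' : Matrix N N ℂ → ℂ}

theorem PD.const {a : ℂ} (ha : a ∈ K) : PD (N := N) K (fun _ => a) (fun _ => 0) :=
  ⟨C a, ⟨C (⟨a, ha⟩ : K), map_C _ _⟩, fun x => (eval_C a).symm, fun v => (dd_C a _ _).symm⟩

theorem PD.coord (b : N × N) : PD K (fun x => x b.1 b.2) (fun v => v b.1 b.2) :=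
  ⟨X b, ⟨X b, map_X _ _⟩, fun x => (eval_X (f := fl x) b).symm, fun v => (dd_X b (fl 1) (fl v)).symm⟩

theorem PD.add (hF : PD K F F') (hG : PD K G G') : PD K (fun x => F x + G x) (fun v => F' v + G' v) := by
  obtain ⟨P, h1, h2, h3⟩ := hF
  obtain ⟨Q, h1', h2', h3'⟩ := hG
  refine ⟨P + Q, Subring.add_mem _ h1 h1', fun x => ?_, fun v => ?_⟩
  · show F x + G x = _
    rw [h2, h2', map_add]
  · show F' v + G' v = _
    rw [h3, h3', dd_add]

theorem PD.mul (hF : PD K F F') (hG : PD K G G') :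
    PD K (fun x => F x * G x) (fun v => F' v * G 1 + F 1 * G' v) := by
  obtain ⟨P, h1, h2, h3⟩ := hF
  obtain ⟨Q, h1', h2', h3'⟩ := hG
  refine ⟨P * Q, Subring.mul_mem _ h1 h1', fun x => ?_, fun v => ?_⟩
  · show F x * G x = _
    rw [h2, h2', map_mul]
  · show F' v * G 1 + F 1 * G' v = _
    rw [h3, h3', dd_mul, h2, h2']

theorem PD.neg (hF : PD K F F') : PD K (fun x => -F x) (fun v => -F' v) := by
  have h := (PD.const (N := N) (K := K) (a := -1) (K.neg_mem K.one_mem)).mul hF
  simpa using h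

theorem PD.sub (hF : PD K F F') (hG : PD K G G') : PD K (fun x => F x - G x) (fun v => F' v - G' v) := by
  simpa [sub_eq_add_neg] using hF.add hG.neg

theorem PD.congr {F₂ F₂' : Matrix N N ℂ → ℂ} (hF : PD K F F') (h : ∀ x, F₂ x = F x) (h' : ∀ v, F₂' v = F' v) :
    PD K F₂ F₂' := by
  have e1 : F₂ = F := funext h
  have e2 : F₂' = F' := funext h'
  rw [e1, e2]
  exact hF

end PD

/-- the equations -/
theorem eq_PD (i j : Idx m l) : PD K (fun x => x i j - mk (by' x) (bV x) (bW x) (bt x) i j)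
    (fun v => v i j - lie (by' v) (bV v) (bW v) (bt v) i j) := by
  have hc : ∀ i j : Idx m l, PD K (fun x => x i j) (fun v => v i j) := fun i j => PD.coord (i, j)
  have h0 : PD K (fun _ : Matrix (Idx m l) (Idx m l) ℂ => (0 : ℂ)) (fun _ => 0) := PD.const K.zero_mem
  have h1 : PD K (fun _ : Matrix (Idx m l) (Idx m l) ℂ => (1 : ℂ)) (fun _ => 0) := PD.const K.one_mem
  have hy : ∀ a b, PD K (fun x : Matrix (Idx m l) (Idx m l) ℂ => by' x a b) (fun v => by' v a b) :=
    fun a b => hc _ _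
  have hV : ∀ a k, PD K (fun x : Matrix (Idx m l) (Idx m l) ℂ => bV x a k) (fun v => bV v a k) :=
    fun a k => hc _ _
  have e1 : ∀ a b, by' (1 : Matrix (Idx m l) (Idx m l) ℂ) a b = if a = b then 1 else 0 := by
    intro a b
    have := congrFun (congrFun (by_mk (m := m) (l := l) 1 0 0 0) a) b
    rw [mk_one] at this
    rw [this, Matrix.one_apply]
  have e2 : bV (1 : Matrix (Idx m l) (Idx m l) ℂ) = 0 := by
    have := bV_mk (m := m) (l := l) 1 0 0 0
    rwa [mk_one] at this
  have hdet : PD K (fun x : Matrix (Idx m l) (Idx m l) ℂ => (by' x).det) (fun v => (by' v).trace) := by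
    refine (((hy 0 0).mul (hy 1 1)).sub ((hy 0 1).mul (hy 1 0))).congr ?_ ?_
    · intro x
      rw [Matrix.det_fin_two]
    · intro v
      rw [Matrix.trace_fin_two, e1, e1, e1, e1]
      simp
  refine (hc i j).sub ?_
  have hsm : ∀ (p : Prop) [Decidable p], PD K (fun x : Matrix (Idx m l) (Idx m l) ℂ => (by' x).det * (if p then 1 else 0))
      (fun v => (by' v).trace * (if p then 1 else 0)) := by
    intro p _
    by_cases hp : p
    · simpa [hp] using hdet
    · simpa [hp] using h0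
  rcases i with (i | i | i) | (i | i) <;> rcases j with (j | j | j) | (j | j)
  · refine (hsm (i = j)).congr ?_ ?_
    · intro x
      simp [mk, Matrix.one_apply]
    · intro v
      simp [lie, Matrix.one_apply]
  · refine (((hV 0 i).mul (hy 1 j)).sub ((hV 1 i).mul (hy 0 j))).congr ?_ ?_
    · intro x
      have : mk (by' x) (bV x) (bW x) (bt x) (Sum.inl (Sum.inl i)) (Sum.inl (Sum.inr (Sum.inl j))) =
        ((bV x)ᵀ * JJ * by' x) i j := rfl
      rw [this]
      simp [JJ, Matrix.mul_apply, Fin.sum_univ_two]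
      ring
    · intro v
      have : lie (by' v) (bV v) (bW v) (bt v) (Sum.inl (Sum.inl i)) (Sum.inl (Sum.inr (Sum.inl j))) =
        ((bV v)ᵀ * JJ) i j := rfl
      rw [this, e1, e1, e2]
      fin_cases j <;> simp [JJ, Matrix.mul_apply, Fin.sum_univ_two]
  · exact hc _ _
  · exact h0
  · exact h0
  · exact h0
  · exact hc _ _
  · exact hc _ _
  · exact h0
  · exact h0
  · exact h0
  · exact h0
  · by_cases h : i = j
    · refine h1.congr (fun x => ?_) (fun v => ?_)
      · simp [mk, Matrix.one_apply, h]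
      · simp [lie]
    · refine h0.congr (fun x => ?_) (fun v => ?_)
      · simp [mk, Matrix.one_apply, h]
      · simp [lie]
  · exact h0
  · exact h0
  · exact h0
  · exact h0
  · exact h0
  · refine (hsm (i = j)).congr ?_ ?_
    · intro x
      simp [mk, Matrix.one_apply]
    · intro v
      simp [lie, Matrix.one_apply]
  · exact hc _ _
  · exact h0
  · exact h0
  · exact h0
  · exact h0
  · by_cases h : i = j
    · refine h1.congr (fun x => ?_) (fun v => ?_)
      · simp [mk, Matrix.one_apply, h]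
      · simp [lie]
    · refine h0.congr (fun x => ?_) (fun v => ?_)
      · simp [mk, Matrix.one_apply, h]
      · simp [lie]

theorem rel_PD (i j : Fin m) : PD (N := Idx m l) K
    (fun x => (bW x - (bW x)ᵀ) i j - ((bV x)ᵀ * JJ * bV x) i j) (fun v => (bW v - (bW v)ᵀ) i j) := by
  have hc : ∀ i j : Idx m l, PD K (fun x => x i j) (fun v => v i j) := fun i j => PD.coord (i, j)
  have hV : ∀ a k, PD K (fun x : Matrix (Idx m l) (Idx m l) ℂ => bV x a k) (fun v => bV v a k) :=
    fun a k => hc _ _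
  have hW : ∀ a k, PD K (fun x : Matrix (Idx m l) (Idx m l) ℂ => bW x a k) (fun v => bW v a k) :=
    fun a k => hc _ _
  have e2 : bV (1 : Matrix (Idx m l) (Idx m l) ℂ) = 0 := by
    have := bV_mk (m := m) (l := l) 1 0 0 0
    rwa [mk_one] at this
  refine (((hW i j).sub (hW j i)).sub (((hV 0 i).mul (hV 1 j)).sub ((hV 1 i).mul (hV 0 j)))).congr ?_ ?_
  · intro x
    simp [JJ, Matrix.mul_apply, Fin.sum_univ_two]
    ring
  · intro v
    rw [e2]
    simp

theorem mem_GG_iff {x : Matrix (Idx m l) (Idx m l) ℂ} : x ∈ GG m l ↔ (by' x).det ≠ 0 ∧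
    bW x - (bW x)ᵀ = (bV x)ᵀ * JJ * bV x ∧ x = mk (by' x) (bV x) (bW x) (bt x) := by
  constructor
  · rintro ⟨y, V, W, t, h1, h2, rfl⟩
    exact ⟨h1, h2, rfl⟩
  · rintro ⟨h1, h2, h3⟩
    exact ⟨_, _, _, _, h1, h2, h3⟩

theorem det_mk_eq_zero {y : Matrix (Fin 2) (Fin 2) ℂ} {V : Matrix (Fin 2) (Fin m) ℂ}
    {W : Matrix (Fin m) (Fin m) ℂ} {t : Matrix Unit (Fin l) ℂ} (h : IsUnit (mk y V W t)) : y.det ≠ 0 := by
  rw [Matrix.isUnit_iff_isUnit_det] at h
  unfold mk at h
  rw [det_fromBlocks_zero₁₂, det_fromBlocks_zero₂₁, det_fromBlocks_zero₂₁, det_fromBlocks_zero₂₁] at h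
  intro h0
  rw [h0] at h
  simp at h

/-- the group is a subtorsor over every field -/
theorem GG_sub : IsSubtorsor K (GG m l) := by
  refine ⟨fun x hx => isUnit_of hx, fun x hx y hy z hz => GG_mul (GG_mul hx (GG_inv hy)) hz,
    {P | P ∈ (MvPolynomial.map (σ := Idx m l × Idx m l) (algebraMap K ℂ)).range ∧ Van (GG m l) P}, ?_, fun x => ?_⟩
  · rintro P ⟨⟨Q, rfl⟩, -⟩ k
    rw [coeff_map]
    exact (Q.coeff k).2
  · constructor
    · intro hx
      exact ⟨isUnit_of hx, fun P hP => hP.2 x hx⟩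
    · rintro ⟨hu, hx⟩
      have h3 : x = mk (by' x) (bV x) (bW x) (bt x) := by
        ext i j
        obtain ⟨P, h1, h2, -⟩ := eq_PD (m := m) (l := l) K i j
        have h4 := hx P ⟨h1, fun z hz => by
          rw [← h2]
          show z i j - mk (by' z) (bV z) (bW z) (bt z) i j = 0
          rw [← (mem_GG_iff.1 hz).2.2, sub_self]⟩
        have h5 := h2 x
        rw [show eval (fl x) P = 0 from h4] at h5
        exact sub_eq_zero.1 h5
      refine mem_GG_iff.2 ⟨?_, ?_, h3⟩
      · rw [h3] at hu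
        exact det_mk_eq_zero hu
      · ext i j
        obtain ⟨P, h1, h2, -⟩ := rel_PD (m := m) (l := l) K i j
        have h4 := hx P ⟨h1, fun z hz => by
          rw [← h2]
          show (bW z - (bW z)ᵀ) i j - ((bV z)ᵀ * JJ * bV z) i j = 0
          rw [(mem_GG_iff.1 hz).2.1, sub_self]⟩
        have h5 := h2 x
        rw [show eval (fl x) P = 0 from h4] at h5
        exact sub_eq_zero.1 h5

/-- the shape of the elements of the Lie algebra of a subgroup -/
theorem shape {H : Set (Matrix (Idx m l) (Idx m l) ℂ)} (hH : H ⊆ GG m l) (h1 : (1 : Matrix (Idx m l) (Idx m l) ℂ) ∈ H)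
    {w : Matrix (Idx m l) (Idx m l) ℂ} (hw : w ∈ LA H) :
    w = lie (by' w) (bV w) (bW w) (bt w) ∧ (bW w)ᵀ = bW w := by
  constructor
  · ext i j
    obtain ⟨P, -, h3, h4⟩ := eq_PD (m := m) (l := l) ⊤ i j
    have h5 := LA_dd h1 hw (P := P) fun z hz => by
      rw [← h3]
      show z i j - mk (by' z) (bV z) (bW z) (bt z) i j = 0
      rw [← (mem_GG_iff.1 (hH hz)).2.2, sub_self]
    rw [← h4] at h5
    exact sub_eq_zero.1 h5
  · ext i j
    obtain ⟨P, -, h3, h4⟩ := rel_PD (m := m) (l := l) ⊤ i j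
    have h5 := LA_dd h1 hw (P := P) fun z hz => by
      rw [← h3]
      show (bW z - (bW z)ᵀ) i j - ((bV z)ᵀ * JJ * bV z) i j = 0
      rw [(mem_GG_iff.1 (hH hz)).2.1, sub_self]
    rw [← h4] at h5
    exact (sub_eq_zero.1 h5).symm

end Pool.Agent.V1138.OM
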